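import Pool.Agent.H91R2.EndRat.Semi

/-!
# Counting isomorphism types
-/

open Polynomial

namespace H91R2.EndRat

universe u

section

variable {A : Type u}

theorem mk_Idx [Infinite A] : Cardinal.mk (Idx A) = Cardinal.mk A := by
  have hA : Cardinal.aleph0 ≤ Cardinal.mk A := Cardinal.aleph0_le_mk A
  have h1 : Cardinal.mk (ℕ × A × A) = Cardinal.mk A := by
    rw [Cardinal.mk_prod, Cardinal.mk_prod]
    simp only [Cardinal.lift_uzero, Cardinal.lift_id, Cardinal.mk_nat, Cardinal.lift_aleph0]
    rw [Cardinal.mul_eq_self hA, Cardinal.aleph0_mul_eq hA]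
  rw [Cardinal.mk_sum, h1]
  simp only [Cardinal.lift_id]
  exact Cardinal.add_eq_self hA

theorem mk_Amb [Infinite A] : Cardinal.mk (Amb A) = Cardinal.mk A := by
  have hA : Cardinal.aleph0 ≤ Cardinal.mk A := Cardinal.aleph0_le_mk A
  have hQ : Cardinal.mk ℚ[X] ≤ Cardinal.aleph0 := by
    refine (Polynomial.cardinalMk_le_max (R := ℚ)).trans ?_
    simp
  have : Infinite (Idx A) := Sum.infinite_of_left
  rw [Cardinal.mk_finsupp_lift_of_infinite, mk_Idx]
  simp only [Cardinal.lift_uzero]
  apply max_eq_left
  refine le_trans ?_ hA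
  have := Cardinal.lift_le.{u, 0}.mpr hQ
  simpa using this

theorem mk_PosC [Infinite A] (R : ℕ → A → A → Prop) : Cardinal.mk (PosC R) = Cardinal.mk A := by
  apply le_antisymm
  · refine le_trans ?_ (mk_Amb (A := A)).le
    refine Cardinal.mk_le_of_injective (f := fun x : PosC R => (x.1 : Amb A)) ?_
    intro x y h
    exact Subtype.ext (Subtype.ext h)
  · refine Cardinal.mk_le_of_injective
      (f := fun a => PosC.of (el R (Sum.inl a)) (el_ne_zero a)) ?_
    intro a b h
    have h1 : (el R (Sum.inl a) : Amb A) = (el R (Sum.inl b) : Amb A) :=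
      congrArg (fun z : PosC R => (z.1 : Amb A)) h
    rw [el_coe (show Valid R (Sum.inl a) from trivial),
      el_coe (show Valid R (Sum.inl b) from trivial)] at h1
    have h2 := Finsupp.single_left_injective one_ne_zero h1
    exact Sum.inl_injective h2

theorem mk_NonnegC [Infinite A] (R : ℕ → A → A → Prop) :
    Cardinal.mk (Multiplicative (Cn R)) = Cardinal.mk A := by
  apply le_antisymm
  · refine le_trans ?_ (mk_Amb (A := A)).le
    refine Cardinal.mk_le_of_injective (f := fun x : Multiplicative (Cn R) =>
      (x.toAdd : Amb A)) ?_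
    intro x y h
    exact Multiplicative.toAdd.injective (Subtype.ext h)
  · refine le_trans (mk_PosC R).ge ?_
    refine Cardinal.mk_le_of_injective (f := fun x : PosC R => Multiplicative.ofAdd x.1) ?_
    intro x y h
    exact Subtype.ext (Multiplicative.ofAdd.injective h)

end

section transport

universe v

variable {S : Type u} {T : Type v} [CommSemigroup S] [CommSemigroup T]

/-- conjugation by an isomorphism is an isomorphism of endomorphism semigroups. -/
def conjEnd (e : S ≃* T) : (S →ₙ* S) ≃* (T →ₙ* T) where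
  toFun φ := (e : S →ₙ* T).comp (φ.comp (e.symm : T →ₙ* S))
  invFun ψ := (e.symm : T →ₙ* S).comp (ψ.comp (e : S →ₙ* T))
  left_inv φ := by
    apply DFunLike.ext; intro x; simp
  right_inv ψ := by
    apply DFunLike.ext; intro x; simp
  map_mul' φ ψ := by
    apply DFunLike.ext; intro x; simp

theorem SolPos.of_equiv (e : S ≃* T) (h : SolPos S) : SolPos T := by
  obtain ⟨f⟩ := h
  exact ⟨(conjEnd e).symm.trans f⟩

theorem SolNonneg.of_equiv (e : S ≃* T) (h : SolNonneg S) : SolNonneg T := by
  obtain ⟨f⟩ := h
  exact ⟨(conjEnd e).symm.trans f⟩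

end transport

section count

theorem mk_CommSemigroup_le (A : Type u) [Infinite A] :
    Cardinal.mk (CommSemigroup A) ≤ 2 ^ Cardinal.mk A := by
  have hA : Cardinal.aleph0 ≤ Cardinal.mk A := Cardinal.aleph0_le_mk A
  have h1 : Cardinal.mk (A → A → A) = 2 ^ Cardinal.mk A := by
    rw [Cardinal.mk_arrow, Cardinal.mk_arrow]
    simp only [Cardinal.lift_id]
    rw [← Cardinal.power_mul, Cardinal.mul_eq_self hA, Cardinal.power_self_eq hA]
  rw [← h1]
  refine Cardinal.mk_le_of_injective (f := fun s : CommSemigroup A => fun x y => s.mul x y) ?_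
  intro s t h
  apply CommSemigroup.ext
  exact h

/-- A family of pairwise non-isomorphic semigroups indexed by subsets gives the full count. -/
theorem isoCount_eq (A : Type u) [Infinite A] (P : ∀ (S : Type u), CommSemigroup S → Prop)
    (hP : ∀ (S T : Type u) (s : CommSemigroup S) (t : CommSemigroup T), (S ≃* T) → P S s → P T t)
    (fam : Set A → Type u) (inst : ∀ X, CommSemigroup (fam X))
    (hcard : ∀ X, Cardinal.mk (fam X) = Cardinal.mk A) (hfam : ∀ X, P (fam X) (inst X))
    (hinj : ∀ X Y, Nonempty (fam X ≃* fam Y) → X = Y) :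
    isoCount A (fun s => P A s) = 2 ^ Cardinal.mk A := by
  apply le_antisymm
  · refine Cardinal.mk_quotient_le.trans ?_
    refine le_trans ?_ (mk_CommSemigroup_le A)
    exact Cardinal.mk_subtype_le _
  · rw [← Cardinal.mk_set]
    have hE : ∀ X, Nonempty (A ≃ fam X) := fun X => Cardinal.eq.mp (hcard X).symm
    let E : ∀ X, A ≃ fam X := fun X => (hE X).some
    let str : ∀ X, CommSemigroup A := fun X => (E X).commSemigroup
    let iso : ∀ X, @MulEquiv A (fam X) (str X).toMul (inst X).toMul :=
      fun X => (E X).mulEquiv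
    have hstr : ∀ X, P A (str X) := fun X =>
      hP (fam X) A (inst X) (str X)
        (@MulEquiv.symm A (fam X) (str X).toMul (inst X).toMul (iso X)) (hfam X)
    refine Cardinal.mk_le_of_injective
      (f := fun X => (Quotient.mk (isoSetoid A (fun s => P A s)) ⟨str X, hstr X⟩)) ?_
    intro X Y h
    have h1 : Nonempty (@MulEquiv A A (str X).toMul (str Y).toMul) := Quotient.exact h
    obtain ⟨e⟩ := h1
    apply hinj X Y
    exact ⟨@MulEquiv.trans (fam X) A (fam Y) (inst X).toMul (str X).toMul (inst Y).toMul
      (@MulEquiv.symm A (fam X) (str X).toMul (inst X).toMul (iso X))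
      (@MulEquiv.trans A A (fam Y) (str X).toMul (str Y).toMul (inst Y).toMul e (iso Y))⟩

end count

theorem isoCount_solPos (A : Type u) [Infinite A] :
    isoCount A (fun s => @SolPos A s) = 2 ^ Cardinal.mk A := by
  classical
  obtain ⟨r, hr⟩ := exists_wellFoundedLT A
  let _ := r
  have : WellFoundedLT A := hr
  exact isoCount_eq A (fun S s => @SolPos S s)
    (fun S T s t e h => @SolPos.of_equiv S T s t e h)
    (fun X => PosC (Rel X)) (fun X => inferInstance) (fun X => mk_PosC _)
    (fun X => solPos_posC X) (fun X Y h => posC_iso X Y h)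

theorem isoCount_solNonneg (A : Type u) [Infinite A] :
    isoCount A (fun s => @SolNonneg A s) = 2 ^ Cardinal.mk A := by
  classical
  obtain ⟨r, hr⟩ := exists_wellFoundedLT A
  let _ := r
  have : WellFoundedLT A := hr
  exact isoCount_eq A (fun S s => @SolNonneg S s)
    (fun S T s t e h => @SolNonneg.of_equiv S T s t e h)
    (fun X => Multiplicative (Cn (Rel X))) (fun X => inferInstance) (fun X => mk_NonnegC _)
    (fun X => solNonneg_nonnegC X) (fun X Y h => nonnegC_iso X Y h)

end H91R2.EndRat
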