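import Mathlib

/-!
# Gordan's alternative over the rationals
-/

namespace H91R2.EndRat

theorem gordan (n : ℕ) : ∀ L : Submodule ℚ (Fin n → ℚ), 0 < n →
    (∃ v ∈ L, ∀ i, 0 < v i) ∨
      (∃ c : Fin n → ℚ, (∀ i, 0 ≤ c i) ∧ (∃ i, c i ≠ 0) ∧ ∀ v ∈ L, ∑ i, c i * v i = 0) := by
  induction n with
  | zero => intro L h; exact absurd h (lt_irrefl 0)
  | succ n ih =>
    intro L _
    rcases Nat.eq_zero_or_pos n with hn | hn
    · subst hn
      by_cases hL : ∃ v ∈ L, v 0 ≠ 0
      · obtain ⟨v, hv, hv0⟩ := hL
        left
        rcases lt_or_gt_of_ne hv0 with h | h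
        · refine ⟨-v, L.neg_mem hv, fun i => ?_⟩
          have hi : i = 0 := Fin.eq_zero i
          rw [hi, Pi.neg_apply]; linarith
        · refine ⟨v, hv, fun i => ?_⟩
          have hi : i = 0 := Fin.eq_zero i
          rw [hi]; exact h
      · right
        push Not at hL
        refine ⟨fun _ => 1, fun _ => zero_le_one, ⟨0, one_ne_zero⟩, fun v hv => ?_⟩
        simp [hL v hv]
    · -- the two smaller spaces
      let π : (Fin (n + 1) → ℚ) →ₗ[ℚ] (Fin n → ℚ) :=
        { toFun := fun v i => v i.succ
          map_add' := fun _ _ => rfl
          map_smul' := fun _ _ => rfl }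
      let K : Submodule ℚ (Fin (n + 1) → ℚ) := LinearMap.ker (LinearMap.proj 0)
      have hK : ∀ v, v ∈ K ↔ v 0 = 0 := fun v => Iff.rfl
      rcases ih (L.map π) hn with ⟨w, hw, hwpos⟩ | ⟨c, hc0, ⟨i0, hi0⟩, hc⟩
      · obtain ⟨v, hv, rfl⟩ := Submodule.mem_map.mp hw
        have hvpos : ∀ i : Fin n, 0 < v i.succ := hwpos
        rcases lt_or_ge 0 (v 0) with h0 | h0
        · left
          refine ⟨v, hv, fun i => ?_⟩
          refine Fin.cases h0 (fun j => hvpos j) i
        · rcases ih ((L ⊓ K).map π) hn with ⟨w, hw, hwpos⟩ | ⟨c, hc0, ⟨i0, hi0⟩, hc⟩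
          · obtain ⟨u, hu, rfl⟩ := Submodule.mem_map.mp hw
            have hupos : ∀ i : Fin n, 0 < u i.succ := hwpos
            have huL : u ∈ L := hu.1
            have hu0 : u 0 = 0 := (hK u).mp hu.2
            by_cases hL : ∃ w ∈ L, w 0 ≠ 0
            · left
              obtain ⟨w, hw, hw0⟩ : ∃ w ∈ L, 0 < w 0 := by
                obtain ⟨w, hw, hw0⟩ := hL
                rcases lt_or_gt_of_ne hw0 with h | h
                · exact ⟨-w, L.neg_mem hw, by rw [Pi.neg_apply]; linarith⟩
                · exact ⟨w, hw, h⟩
              -- choose a large multiple of u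
              have hN : ∀ i : Fin n, ∃ N : ℕ, 0 < w i.succ + N * u i.succ := by
                intro i
                obtain ⟨N, hN⟩ := exists_nat_gt (-w i.succ / u i.succ)
                refine ⟨N, ?_⟩
                rw [div_lt_iff₀ (hupos i)] at hN
                linarith
              choose N hN using hN
              set M := Finset.univ.sup N with hM
              refine ⟨w + (M : ℚ) • u, L.add_mem hw (L.smul_mem _ huL), fun i => ?_⟩
              refine Fin.cases ?_ (fun j => ?_) i
              · simp [hu0, hw0]
              · have h1 : N j ≤ M := Finset.le_sup (Finset.mem_univ j)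
                have h2 : (N j : ℚ) ≤ M := by exact_mod_cast h1
                have h3 := hN j
                have h4 := hupos j
                simp only [Pi.add_apply, Pi.smul_apply, smul_eq_mul]
                nlinarith
            · right
              push Not at hL
              refine ⟨fun i => if i = 0 then 1 else 0, fun i => ?_, ⟨0, by simp⟩, fun v hv => ?_⟩
              · dsimp only; split_ifs <;> norm_num
              · simp [hL v hv]
          · -- the functional c on L factors through the zeroth coordinate
            have hv0 : v 0 ≠ 0 ∧ ∑ i, c i * v i.succ > 0 := by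
              have hpos : 0 < ∑ i, c i * v i.succ := by
                apply Finset.sum_pos'
                · intro i _; exact mul_nonneg (hc0 i) (hvpos i).le
                · exact ⟨i0, Finset.mem_univ _, mul_pos (lt_of_le_of_ne (hc0 i0) (Ne.symm hi0))
                    (hvpos i0)⟩
              refine ⟨fun h => ?_, hpos⟩
              have := hc (π v) (Submodule.mem_map_of_mem ⟨hv, (hK v).mpr h⟩)
              have h' : ∑ i, c i * v i.succ = 0 := this
              linarith
            obtain ⟨hv0, hpos⟩ := hv0
            have hv0neg : v 0 < 0 := lt_of_le_of_ne h0 hv0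
            set S := ∑ i, c i * v i.succ with hS
            have hfac : ∀ w ∈ L, ∑ i, c i * w i.succ = (S / v 0) * w 0 := by
              intro w hw
              have hmem : w - (w 0 / v 0) • v ∈ L ⊓ K := by
                refine ⟨L.sub_mem hw (L.smul_mem _ hv), (hK _).mpr ?_⟩
                simp [hv0]
              have h1 := hc (π (w - (w 0 / v 0) • v)) (Submodule.mem_map_of_mem hmem)
              have h2 : ∑ i, c i * (w i.succ - (w 0 / v 0) * v i.succ) = 0 := h1
              have h3 : ∑ i, c i * (w i.succ - (w 0 / v 0) * v i.succ) =
                  ∑ i, c i * w i.succ - (w 0 / v 0) * S := by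
                rw [hS, Finset.mul_sum, ← Finset.sum_sub_distrib]
                exact Finset.sum_congr rfl fun i _ => by ring
              rw [h3] at h2
              rw [sub_eq_zero.mp h2]; ring
            right
            refine ⟨Fin.cons (-(S / v 0)) c, fun i => ?_, ⟨i0.succ, by simpa using hi0⟩,
              fun w hw => ?_⟩
            · refine Fin.cases ?_ (fun j => ?_) i
              · simp only [Fin.cons_zero]
                have : S / v 0 < 0 := div_neg_of_pos_of_neg hpos hv0neg
                linarith
              · simpa using hc0 j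
            · rw [Fin.sum_univ_succ]
              simp only [Fin.cons_zero, Fin.cons_succ]
              rw [hfac w hw]; ring
      · right
        refine ⟨Fin.cons 0 c, fun i => ?_, ⟨i0.succ, by simpa using hi0⟩, fun w hw => ?_⟩
        · refine Fin.cases ?_ (fun j => ?_) i
          · simp
          · simpa using hc0 j
        · rw [Fin.sum_univ_succ]
          simp only [Fin.cons_zero, Fin.cons_succ, zero_mul, zero_add]
          exact hc (π w) (Submodule.mem_map_of_mem hw)

end H91R2.EndRat
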