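import Pool.Agent.H91R2.EndRat.Pow

/-!
# Internal characterisation of the solutions
-/

namespace H91R2.EndRat

universe u v

section

variable {S : Type u} [CommSemigroup S]

theorem ppow_end_apply (φ : S →ₙ* S) (n : ℕ) (x : S) : (ppow φ n) x = ppow (φ x) n := by
  induction n with
  | zero => rfl
  | succ n ih => rw [ppow, MulHom.mul_apply, ih]; rfl

theorem map_ppow {T : Type v} [CommSemigroup T] (φ : S →ₙ* T) (n : ℕ) (x : S) :
    φ (ppow x n) = ppow (φ x) n := by
  induction n with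
  | zero => rfl
  | succ n ih => rw [ppow, map_mul, ih]; rfl

theorem add_ppow {F : (S →ₙ* S) → ℚ} (hF : ∀ φ ψ, F (φ * ψ) = F φ + F ψ) (φ : S →ₙ* S) (n : ℕ) :
    F (ppow φ n) = (n + 1) * F φ := by
  induction n with
  | zero => simp [ppow]
  | succ n ih => rw [ppow, hF, ih]; push_cast; ring

/-- constant endomorphism at an idempotent -/
def constEnd (e : S) (he : e * e = e) : S →ₙ* S where
  toFun _ := e
  map_mul' _ _ := he.symm

theorem ppow_idem {e : S} (he : e * e = e) (n : ℕ) : ppow e n = e := by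
  induction n with
  | zero => rfl
  | succ n ih => rw [ppow, ih, he]

/-- The core of the forward direction. -/
theorem core_forward {F : (S →ₙ* S) → ℚ} (hF : ∀ φ ψ, F (φ * ψ) = F φ + F ψ)
    (hinj : Function.Injective F) (hsurj : ∀ q : ℚ, 0 < q → ∃ φ, F φ = q)
    (hid : 0 < F (MulHom.id S)) :
    UniqDiv S ∧ ∀ φ : S →ₙ* S, 0 < F φ → IsRatPow φ := by
  constructor
  · intro n
    have hn : (0 : ℚ) < n + 1 := by positivity
    obtain ⟨ρ, hρ⟩ := hsurj (F (MulHom.id S) / (n + 1)) (div_pos hid hn)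
    have h1 : ppow ρ n = MulHom.id S := by
      apply hinj
      rw [add_ppow hF, hρ]
      field_simp
    have h2 : ∀ x, ppow (ρ x) n = x := by
      intro x
      rw [← ppow_end_apply, h1]; rfl
    constructor
    · intro x y hxy
      dsimp only at hxy
      rw [← h2 x, ← h2 y, ← map_ppow, ← map_ppow, hxy]
    · intro x
      exact ⟨ρ x, h2 x⟩
  · intro φ hφ
    set r : ℚ := F φ / F (MulHom.id S) with hr
    have hrpos : 0 < r := div_pos hφ hid
    have hnum : 0 < r.num := Rat.num_pos.mpr hrpos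
    obtain ⟨a, ha⟩ : ∃ a : ℕ, r.num = a + 1 := ⟨(r.num - 1).toNat, by omega⟩
    obtain ⟨b, hb⟩ : ∃ b : ℕ, r.den = b + 1 := ⟨r.den - 1, by have := r.den_pos; omega⟩
    refine ⟨a, b, fun x => ?_⟩
    have h1 : ppow φ b = ppow (MulHom.id S) a := by
      apply hinj
      rw [add_ppow hF, add_ppow hF]
      have h2 : (r.num : ℚ) / r.den = r := Rat.num_div_den r
      rw [ha, hb] at h2
      push_cast at h2
      have hb0 : (b : ℚ) + 1 ≠ 0 := by positivity
      have hid0 : F (MulHom.id S) ≠ 0 := hid.ne'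
      rw [hr, div_eq_div_iff hb0 hid0] at h2
      linarith
    rw [← ppow_end_apply, h1, ppow_end_apply]
    rfl

theorem solPos_forward (h : SolPos S) :
    Nontrivial S ∧ UniqDiv S ∧ ∀ φ : S →ₙ* S, IsRatPow φ := by
  obtain ⟨Φ⟩ := h
  set F : (S →ₙ* S) → ℚ := fun φ => (Φ φ).toAdd.1 with hFdef
  have hF : ∀ φ ψ, F (φ * ψ) = F φ + F ψ := by
    intro φ ψ
    simp only [hFdef, map_mul, toAdd_mul]
    rfl
  have hinj : Function.Injective F := by
    intro φ ψ h
    exact Φ.injective (Multiplicative.toAdd.injective (Subtype.ext h))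
  have hsurj : ∀ q : ℚ, 0 < q → ∃ φ, F φ = q := by
    intro q hq
    exact ⟨Φ.symm (Multiplicative.ofAdd ⟨q, hq⟩), by simp [hFdef]⟩
  have hpos : ∀ φ, 0 < F φ := fun φ => (Φ φ).toAdd.2
  obtain ⟨h1, h2⟩ := core_forward hF hinj hsurj (hpos _)
  refine ⟨?_, h1, fun φ => h2 φ (hpos φ)⟩
  by_contra hnt
  rw [not_nontrivial_iff_subsingleton] at hnt
  obtain ⟨φ, hφ⟩ := hsurj 1 one_pos
  obtain ⟨ψ, hψ⟩ := hsurj 2 two_pos
  have : φ = ψ := DFunLike.ext _ _ fun x => Subsingleton.elim _ _
  rw [this, hψ] at hφ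
  norm_num at hφ

theorem solNonneg_forward (h : SolNonneg S) :
    Nontrivial S ∧ UniqDiv S ∧ ∃ e : S, (∀ x, e * x = x) ∧
      ∀ φ : S →ₙ* S, (∀ x, φ x = e) ∨ IsRatPow φ := by
  obtain ⟨Φ⟩ := h
  set F : (S →ₙ* S) → ℚ := fun φ => ((Φ φ).toAdd : ℚ) with hFdef
  have hF : ∀ φ ψ, F (φ * ψ) = F φ + F ψ := by
    intro φ ψ
    simp only [hFdef, map_mul, toAdd_mul]
    exact NNRat.coe_add _ _
  have hinj : Function.Injective F := by
    intro φ ψ h
    exact Φ.injective (Multiplicative.toAdd.injective (NNRat.coe_inj.mp h))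
  have hsurj : ∀ q : ℚ, 0 ≤ q → ∃ φ, F φ = q := by
    intro q hq
    refine ⟨Φ.symm (Multiplicative.ofAdd (⟨q, hq⟩ : ℚ≥0)), ?_⟩
    simp only [hFdef, MulEquiv.apply_symm_apply]
    rfl
  have hnn : ∀ φ, 0 ≤ F φ := fun φ => (Φ φ).toAdd.coe_nonneg
  have hnt : Nontrivial S := by
    by_contra hnt
    rw [not_nontrivial_iff_subsingleton] at hnt
    obtain ⟨φ, hφ⟩ := hsurj 1 one_pos.le
    obtain ⟨ψ, hψ⟩ := hsurj 2 two_pos.le
    have : φ = ψ := DFunLike.ext _ _ fun x => Subsingleton.elim _ _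
    rw [this, hψ] at hφ
    norm_num at hφ
  obtain ⟨ε, hε⟩ := hsurj 0 le_rfl
  obtain ⟨x₀⟩ : Nonempty S := inferInstance
  have hεε : ε * ε = ε := hinj (by rw [hF, hε, add_zero])
  set e := ε x₀ with he
  have hee : e * e = e := by
    have := DFunLike.congr_fun hεε x₀
    exact this
  have hconst : constEnd e hee = ε := by
    apply hinj
    have h1 : constEnd e hee * constEnd e hee = constEnd e hee :=
      DFunLike.ext _ _ fun x => hee
    have h2 := hF (constEnd e hee) (constEnd e hee)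
    rw [h1] at h2
    rw [hε]; linarith
  have hεx : ∀ x, ε x = e := fun x => by rw [← hconst]; rfl
  have hex : ∀ x, e * x = x := by
    intro x
    have h1 : ε * MulHom.id S = MulHom.id S := hinj (by rw [hF, hε, zero_add])
    have h2 := DFunLike.congr_fun h1 x
    rw [MulHom.mul_apply, hεx] at h2
    exact h2
  have hid : 0 < F (MulHom.id S) := by
    refine lt_of_le_of_ne (hnn _) (fun h0 => ?_)
    have h1 : MulHom.id S = ε := hinj (by rw [hε, ← h0])
    obtain ⟨x, y, hxy⟩ := hnt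
    apply hxy
    have h2 := DFunLike.congr_fun h1 x
    have h3 := DFunLike.congr_fun h1 y
    rw [hεx] at h2 h3
    exact h2.trans h3.symm
  obtain ⟨h1, h2⟩ := core_forward hF hinj (fun q hq => hsurj q hq.le) hid
  refine ⟨hnt, h1, e, hex, fun φ => ?_⟩
  rcases (hnn φ).eq_or_lt with h0 | h0
  · left
    have : φ = ε := hinj (by rw [hε, ← h0])
    intro x
    rw [this, hεx]
  · right
    exact h2 φ h0

/-! ### backward direction -/

theorem exists_coe_rp (hS : UniqDiv S) (x : S) {q : ℚ≥0} (hq : q ≠ 0) :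
    ∃ y : S, (y : WithOne S) = rp (x : WithOne S) q := by
  have hM := UD_withOne hS
  rcases withOne_cases (rp (x : WithOne S) q) with h | ⟨z, hz⟩
  · exfalso
    have h1 := rp_spec hM (x : WithOne S) q
    rw [h, one_pow] at h1
    have hnum : q.num ≠ 0 := fun h0 => hq (by rw [← NNRat.num_div_den q, h0]; simp)
    obtain ⟨m, hm⟩ : ∃ m, q.num = m + 1 := ⟨q.num - 1, by omega⟩
    rw [hm, ← coe_ppow] at h1
    exact WithOne.coe_ne_one h1.symm
  · exact ⟨z, hz.symm⟩

/-- The rational power endomorphism. -/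
noncomputable def powEnd (hS : UniqDiv S) (q : ℚ≥0) (hq : q ≠ 0) : S →ₙ* S where
  toFun x := (exists_coe_rp hS x hq).choose
  map_mul' x y := by
    apply WithOne.coe_injective
    refine (exists_coe_rp hS (x * y) hq).choose_spec.trans ?_
    rw [WithOne.coe_mul x y, rp_mul (UD_withOne hS), WithOne.coe_mul,
      (exists_coe_rp hS x hq).choose_spec, (exists_coe_rp hS y hq).choose_spec]

theorem coe_powEnd (hS : UniqDiv S) (q : ℚ≥0) (hq : q ≠ 0) (x : S) :
    ((powEnd hS q hq x : S) : WithOne S) = rp (x : WithOne S) q :=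
  (exists_coe_rp hS x hq).choose_spec

theorem isRatPow_iff (hS : UniqDiv S) (φ : S → S) :
    IsRatPow φ ↔ ∃ q : ℚ≥0, q ≠ 0 ∧ ∀ x, ((φ x : S) : WithOne S) = rp (x : WithOne S) q := by
  have hM := UD_withOne hS
  constructor
  · rintro ⟨p, q, h⟩
    refine ⟨((p + 1 : ℕ) : ℚ≥0) / ((q + 1 : ℕ) : ℚ≥0), ?_, fun x => ?_⟩
    · apply div_ne_zero
      · exact_mod_cast Nat.succ_ne_zero p
      · exact_mod_cast Nat.succ_ne_zero q
    · refine rp_unique hM (a := p + 1) (b := q + 1) (Nat.succ_pos q) ?_ rfl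
      rw [← coe_ppow, ← coe_ppow, h]
  · rintro ⟨q, hq, h⟩
    have hnum : q.num ≠ 0 := fun h0 => hq (by rw [← NNRat.num_div_den q, h0]; simp)
    obtain ⟨m, hm⟩ : ∃ m, q.num = m + 1 := ⟨q.num - 1, by omega⟩
    obtain ⟨d, hd⟩ : ∃ d, q.den = d + 1 := ⟨q.den - 1, by have := q.den_pos; omega⟩
    refine ⟨m, d, fun x => ?_⟩
    apply WithOne.coe_injective
    rw [coe_ppow, coe_ppow, h, ← hm, ← hd, rp_spec hM]

/-- exponents are determined if no power is idempotent. -/
theorem rp_exp_inj (hS : UniqDiv S) {x : S} (hx : ∀ n, ppow x n * ppow x n ≠ ppow x n)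
    {q r : ℚ≥0} (h : rp (x : WithOne S) q = rp (x : WithOne S) r) : q = r := by
  have hM := UD_withOne hS
  have h1 : (x : WithOne S) ^ (q.num * r.den) = (x : WithOne S) ^ (r.num * q.den) := by
    calc (x : WithOne S) ^ (q.num * r.den) = ((x : WithOne S) ^ q.num) ^ r.den := pow_mul _ _ _
      _ = (rp (x : WithOne S) q) ^ (q.den * r.den) := by rw [← rp_spec hM, pow_mul]
      _ = (rp (x : WithOne S) r) ^ (r.den * q.den) := by rw [h, mul_comm]
      _ = ((x : WithOne S) ^ r.num) ^ q.den := by rw [← rp_spec hM, pow_mul]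
      _ = (x : WithOne S) ^ (r.num * q.den) := (pow_mul _ _ _).symm
  have h2 : q.num * r.den = r.num * q.den := by
    by_contra hne
    have key : ∀ a b : ℕ, a < b → (x : WithOne S) ^ a = (x : WithOne S) ^ b → False := by
      intro a b hab hh
      have hh' : (x : WithOne S) ^ (a + 1) = (x : WithOne S) ^ (b + 1) := by
        rw [pow_succ, pow_succ, hh]
      rw [← coe_ppow, ← coe_ppow] at hh'
      obtain ⟨n, hn⟩ := exists_idem hab (WithOne.coe_inj.mp hh')
      exact hx n hn
    rcases lt_or_gt_of_ne hne with h3 | h3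
    · exact key _ _ h3 h1
    · exact key _ _ h3 h1.symm
  have hq0 : (q.den : ℚ≥0) ≠ 0 := by exact_mod_cast q.den_pos.ne'
  have hr0 : (r.den : ℚ≥0) ≠ 0 := by exact_mod_cast r.den_pos.ne'
  rw [← NNRat.num_div_den q, ← NNRat.num_div_den r, div_eq_div_iff hq0 hr0]
  exact_mod_cast h2

theorem no_idem (hnt : Nontrivial S) (hS : UniqDiv S) (hE : ∀ φ : S →ₙ* S, IsRatPow φ)
    (e : S) : e * e ≠ e := by
  intro he
  obtain ⟨p, q, h⟩ := hE (constEnd e he)
  obtain ⟨x, y, hxy⟩ := hnt
  apply hxy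
  apply (hS p).1
  dsimp only
  rw [← h x, ← h y]
  rfl

/-- positive rationals as nonnegative rationals -/
def toNN (q : {q : ℚ // 0 < q}) : ℚ≥0 := ⟨q.1, q.2.le⟩

theorem coe_toNN (q : {q : ℚ // 0 < q}) : ((toNN q : ℚ≥0) : ℚ) = q.1 := rfl

theorem toNN_ne_zero (q : {q : ℚ // 0 < q}) : toNN q ≠ 0 := by
  intro h
  have h1 : ((toNN q : ℚ≥0) : ℚ) = 0 := by rw [h]; rfl
  rw [coe_toNN] at h1
  exact q.2.ne' h1

theorem toNN_add (q r : {q : ℚ // 0 < q}) : toNN (q + r) = toNN q + toNN r := by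
  apply NNRat.coe_inj.mp
  rw [NNRat.coe_add, coe_toNN, coe_toNN, coe_toNN]
  rfl

theorem toNN_inj {q r : {q : ℚ // 0 < q}} (h : toNN q = toNN r) : q = r := by
  apply Subtype.ext
  rw [← coe_toNN, ← coe_toNN, h]

theorem solPos_backward (hnt : Nontrivial S) (hS : UniqDiv S)
    (hE : ∀ φ : S →ₙ* S, IsRatPow φ) : SolPos S := by
  have hM := UD_withOne hS
  have hexp : ∀ (x : S) (q r : ℚ≥0), rp (x : WithOne S) q = rp (x : WithOne S) r → q = r :=
    fun x q r h => rp_exp_inj hS (fun n => no_idem hnt hS hE _) h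
  let g : Multiplicative {q : ℚ // 0 < q} →ₙ* (S →ₙ* S) :=
    { toFun := fun q => powEnd hS (toNN q.toAdd) (toNN_ne_zero q.toAdd)
      map_mul' := by
        intro q r
        apply DFunLike.ext
        intro x
        apply WithOne.coe_injective
        rw [MulHom.mul_apply, WithOne.coe_mul, coe_powEnd, coe_powEnd, coe_powEnd, ← rp_add hM,
          toAdd_mul, toNN_add] }
  have hg : Function.Bijective g := by
    constructor
    · intro q r h
      obtain ⟨x⟩ : Nonempty S := inferInstance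
      have h1 := congrArg (fun y : S => (y : WithOne S)) (DFunLike.congr_fun h x)
      have h2 : rp (x : WithOne S) (toNN q.toAdd) = rp (x : WithOne S) (toNN r.toAdd) := by
        rw [← coe_powEnd hS _ (toNN_ne_zero q.toAdd), ← coe_powEnd hS _ (toNN_ne_zero r.toAdd)]
        exact h1
      have h3 := hexp x _ _ h2
      exact Multiplicative.toAdd.injective (toNN_inj h3)
    · intro φ
      obtain ⟨q, hq, h⟩ := (isRatPow_iff hS φ).mp (hE φ)
      have hqpos : (0 : ℚ) < q := by
        refine lt_of_le_of_ne q.coe_nonneg (fun h0 => hq ?_)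
        exact NNRat.coe_inj.mp h0.symm
      refine ⟨Multiplicative.ofAdd ⟨(q : ℚ), hqpos⟩, ?_⟩
      apply DFunLike.ext
      intro x
      apply WithOne.coe_injective
      rw [h x]
      exact coe_powEnd hS _ (toNN_ne_zero _) x
  exact ⟨(MulEquiv.ofBijective g hg).symm⟩

theorem solPos_iff : SolPos S ↔ Nontrivial S ∧ UniqDiv S ∧ ∀ φ : S →ₙ* S, IsRatPow φ :=
  ⟨solPos_forward, fun h => solPos_backward h.1 h.2.1 h.2.2⟩

/-- In the nonnegative case the identity is the only idempotent. -/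
theorem idem_eq {e : S} (hnt : Nontrivial S) (hS : UniqDiv S)
    (hE : ∀ φ : S →ₙ* S, (∀ x, φ x = e) ∨ IsRatPow φ) (f : S) (hf : f * f = f) : f = e := by
  rcases hE (constEnd f hf) with h | ⟨p, q, h⟩
  · obtain ⟨x⟩ : Nonempty S := inferInstance
    exact h x
  · exfalso
    obtain ⟨x, y, hxy⟩ := hnt
    apply hxy
    apply (hS p).1
    dsimp only
    rw [← h x, ← h y]
    rfl

theorem exp_inj_nonneg {e : S} (hnt : Nontrivial S) (hS : UniqDiv S) (he : ∀ x, e * x = x)
    (hE : ∀ φ : S →ₙ* S, (∀ x, φ x = e) ∨ IsRatPow φ) {x : S} (hx : x ≠ e) {q r : ℚ≥0}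
    (h : rp (x : WithOne S) q = rp (x : WithOne S) r) : q = r := by
  apply rp_exp_inj hS _ h
  intro n hn
  have h1 := idem_eq hnt hS hE _ hn
  apply hx
  apply (hS n).1
  dsimp only
  rw [h1, ppow_idem (he e)]

theorem solNonneg_backward {e : S} (hnt : Nontrivial S) (hS : UniqDiv S) (he : ∀ x, e * x = x)
    (hE : ∀ φ : S →ₙ* S, (∀ x, φ x = e) ∨ IsRatPow φ) : SolNonneg S := by
  classical
  have hM := UD_withOne hS
  obtain ⟨x₀, hx₀⟩ : ∃ x : S, x ≠ e := exists_ne e
  let G : ℚ≥0 → (S →ₙ* S) := fun q =>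
    if h : q = 0 then constEnd e (he e) else powEnd hS q h
  have hG0 : ∀ q : ℚ≥0, q = 0 → G q = constEnd e (he e) := by
    intro q h; simp only [G]; rw [dif_pos h]
  have hG1 : ∀ (q : ℚ≥0) (h : q ≠ 0), G q = powEnd hS q h := by
    intro q h; simp only [G]; rw [dif_neg h]
  have hadd : ∀ q r, G (q + r) = G q * G r := by
    intro q r
    by_cases hq : q = 0
    · subst hq
      rw [hG0 0 rfl, zero_add]
      apply DFunLike.ext
      intro x
      exact (he _).symm
    · by_cases hr : r = 0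
      · subst hr
        rw [hG0 0 rfl, add_zero]
        apply DFunLike.ext
        intro x
        rw [MulHom.mul_apply, mul_comm]
        exact (he _).symm
      · have hqr : q + r ≠ 0 := by
          intro h
          exact hq (add_eq_zero.mp h).1
        rw [hG1 q hq, hG1 r hr, hG1 (q + r) hqr]
        apply DFunLike.ext
        intro x
        apply WithOne.coe_injective
        rw [MulHom.mul_apply, WithOne.coe_mul, coe_powEnd, coe_powEnd, coe_powEnd, ← rp_add hM]
  have hinj : Function.Injective G := by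
    have key : ∀ q r : ℚ≥0, q = 0 → r ≠ 0 → G q ≠ G r := by
      intro q r hq hr h
      rw [hG0 q hq, hG1 r hr] at h
      have h1 := DFunLike.congr_fun h x₀
      have h2 : (e : WithOne S) = rp (x₀ : WithOne S) r := by
        rw [← coe_powEnd hS r hr, ← h1]; rfl
      have h3 : (e : WithOne S) = rp (e : WithOne S) r := by
        refine rp_unique hM (a := NNRat.num r) (b := NNRat.den r) (NNRat.den_pos r) ?_
          (NNRat.num_div_den r).symm
        have hnum : NNRat.num r ≠ 0 := fun h0 => hr (by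
          rw [← NNRat.num_div_den r, h0, Nat.cast_zero, zero_div])
        obtain ⟨m, hm⟩ : ∃ m, NNRat.num r = m + 1 := ⟨NNRat.num r - 1, by omega⟩
        obtain ⟨d, hd⟩ : ∃ d, NNRat.den r = d + 1 :=
          ⟨NNRat.den r - 1, by have := NNRat.den_pos r; omega⟩
        rw [hm, hd, ← coe_ppow, ← coe_ppow, ppow_idem (he e), ppow_idem (he e)]
      have h4 : rp (x₀ : WithOne S) r = rp (e : WithOne S) r := h2.symm.trans h3
      have h5 : (x₀ : WithOne S) = (e : WithOne S) := by
        have h6 : rp (rp (x₀ : WithOne S) r) r⁻¹ = rp (rp (e : WithOne S) r) r⁻¹ := by rw [h4]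
        rw [rp_rp hM, rp_rp hM, mul_inv_cancel₀ hr, rp_one hM, rp_one hM] at h6
        exact h6
      exact hx₀ (WithOne.coe_inj.mp h5)
    intro q r h
    by_cases hq : q = 0
    · by_cases hr : r = 0
      · exact hq.trans hr.symm
      · exact absurd h (key q r hq hr)
    · by_cases hr : r = 0
      · exact absurd h.symm (key r q hr hq)
      · rw [hG1 q hq, hG1 r hr] at h
        have h1 : ((powEnd hS q hq x₀ : S) : WithOne S) = ((powEnd hS r hr x₀ : S) : WithOne S) := by
          rw [h]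
        rw [coe_powEnd, coe_powEnd] at h1
        exact exp_inj_nonneg hnt hS he hE hx₀ h1
  have hsurj : Function.Surjective G := by
    intro φ
    rcases hE φ with h | h
    · refine ⟨0, ?_⟩
      rw [hG0 0 rfl]
      apply DFunLike.ext
      intro x
      exact (h x).symm
    · obtain ⟨q, hq, h⟩ := (isRatPow_iff hS φ).mp h
      refine ⟨q, ?_⟩
      rw [hG1 q hq]
      apply DFunLike.ext
      intro x
      apply WithOne.coe_injective
      rw [h x, coe_powEnd]
  let g : Multiplicative ℚ≥0 →ₙ* (S →ₙ* S) :=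
    { toFun := fun q => G q.toAdd
      map_mul' := fun q r => hadd q.toAdd r.toAdd }
  have hg : Function.Bijective g := by
    constructor
    · intro q r h
      exact Multiplicative.toAdd.injective (hinj h)
    · intro φ
      obtain ⟨q, hq⟩ := hsurj φ
      exact ⟨Multiplicative.ofAdd q, hq⟩
  exact ⟨(MulEquiv.ofBijective g hg).symm⟩

theorem solNonneg_iff : SolNonneg S ↔ Nontrivial S ∧ UniqDiv S ∧ ∃ e : S, (∀ x, e * x = x) ∧
    ∀ φ : S →ₙ* S, (∀ x, φ x = e) ∨ IsRatPow φ :=
  ⟨solNonneg_forward, fun ⟨h1, h2, _, h3, h4⟩ => solNonneg_backward h1 h2 h3 h4⟩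

end

end H91R2.EndRat
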