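import Mathlib

/-!
# A rigid family of relations on every well-ordered set (set-valued version)
-/

namespace H91R2.EndRat

universe u

section

variable {A : Type u} [LinearOrder A]

/-- `s` is a strictly increasing sequence cofinal in the initial segment below `l`. -/
def IsLad (l : WithTop A) (s : ℕ → A) : Prop :=
  StrictMono s ∧ (∀ k, (s k : WithTop A) < l) ∧ ∀ b : A, (b : WithTop A) < l → ∃ k, b < s k

/-- `l` is a limit of cofinality `ω`. -/
def Lad (l : WithTop A) : Prop := ∃ s : ℕ → A, IsLad l s

open Classical in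
/-- the chosen ladder. -/
noncomputable def lad [Nonempty A] (l : WithTop A) : ℕ → A :=
  if h : Lad l then Classical.choose h else fun _ => Classical.arbitrary A

theorem lad_spec [Nonempty A] {l : WithTop A} (h : Lad l) : IsLad l (lad l) := by
  unfold lad
  rw [dif_pos h]
  exact Classical.choose_spec h

/-- The relations: `0` is `<`, `1` is the diagonal of `X`, the others code the ladders. -/
def Rel [Nonempty A] (X : Set A) : ℕ → A → A → Prop
  | 0, a, b => a < b
  | 1, a, b => a = b ∧ a ∈ X
  | (n + 2), a, b =>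
      if n % 2 = 0 then Lad (b : WithTop A) ∧ a = lad (b : WithTop A) (n / 2)
      else a = b ∧ Lad (⊤ : WithTop A) ∧ a = lad (⊤ : WithTop A) (n / 2)

theorem rel_lad [Nonempty A] (X : Set A) (k : ℕ) (a b : A) :
    Rel X (2 * k + 2) a b ↔ Lad (b : WithTop A) ∧ a = lad (b : WithTop A) k := by
  have h1 : (2 * k) % 2 = 0 := by omega
  have h2 : (2 * k) / 2 = k := by omega
  simp only [Rel, h1, h2, if_true]

theorem rel_top [Nonempty A] (X : Set A) (k : ℕ) (a b : A) :
    Rel X (2 * k + 3) a b ↔ a = b ∧ Lad (⊤ : WithTop A) ∧ a = lad (⊤ : WithTop A) k := by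
  have h0 : 2 * k + 3 = (2 * k + 1) + 2 := by omega
  have h1 : ¬ (2 * k + 1) % 2 = 0 := by omega
  have h2 : (2 * k + 1) / 2 = k := by omega
  rw [h0]
  simp only [Rel, h1, h2, if_false]

/-- A set-valued homomorphism between the structures `Rel X` and `Rel X'`. -/
structure SetHom [Nonempty A] (X X' : Set A) (D : A → Finset A) : Prop where
  left : ∀ k a b, Rel X k a b → ∀ x ∈ D a, ∃ y ∈ D b, Rel X' k x y
  right : ∀ k a b, Rel X k a b → ∀ y ∈ D b, ∃ x ∈ D a, Rel X' k x y

theorem SetHom.eq_singleton [WellFoundedLT A] [Nonempty A] {X X' : Set A} {D : A → Finset A}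
    (hD : SetHom X X' D) (hne : ∀ a, (D a).Nonempty) (a : A) : D a = {a} := by
  classical
  -- maximum and minimum
  set f : A → A := fun a => (D a).max' (hne a) with hf
  set g : A → A := fun a => (D a).min' (hne a) with hg
  have hfmem : ∀ a, f a ∈ D a := fun a => Finset.max'_mem _ _
  have hgmem : ∀ a, g a ∈ D a := fun a => Finset.min'_mem _ _
  have hfle : ∀ a x, x ∈ D a → x ≤ f a := fun a x hx => Finset.le_max' _ _ hx
  have hgle : ∀ a x, x ∈ D a → g a ≤ x := fun a x hx => Finset.min'_le _ _ hx
  have hfmono : StrictMono f := by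
    intro a b hab
    obtain ⟨y, hy, hxy⟩ := hD.left 0 a b hab (f a) (hfmem a)
    exact lt_of_lt_of_le hxy (hfle b y hy)
  have hgmono : StrictMono g := by
    intro a b hab
    obtain ⟨x, hx, hxy⟩ := hD.right 0 a b hab (g b) (hgmem b)
    exact lt_of_le_of_lt (hgle a x hx) hxy
  have hfid : ∀ a, f a = a := by
    intro a
    by_contra hne'
    have hlt : a < f a := lt_of_le_of_ne hfmono.le_apply (Ne.symm hne')
    set s : ℕ → A := fun n => f^[n] a with hs
    have hsmono : StrictMono s := hfmono.strictMono_iterate_of_lt_map hlt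
    have hsucc : ∀ n, s (n + 1) = f (s n) := fun n => Function.iterate_succ_apply' f n a
    -- the supremum
    have hwf : WellFounded ((· < ·) : WithTop A → WithTop A → Prop) := wellFounded_lt
    set U : Set (WithTop A) := {u | ∀ n, (s n : WithTop A) < u} with hU
    have hUne : U.Nonempty := ⟨⊤, fun n => WithTop.coe_lt_top _⟩
    set l : WithTop A := hwf.min U hUne with hl
    have hlU : l ∈ U := hwf.min_mem U hUne
    have hlmin : ∀ u ∈ U, l ≤ u := fun u hu => not_lt.mp (hwf.not_lt_min U hu)
    have hLadl : IsLad l s := by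
      refine ⟨hsmono, hlU, ?_⟩
      intro b hb
      have : (b : WithTop A) ∉ U := fun h => absurd (hlmin _ h) (not_le.mpr hb)
      simp only [hU, Set.mem_ofPred_eq, not_forall, not_lt] at this
      obtain ⟨n, hn⟩ := this
      refine ⟨n + 1, lt_of_le_of_lt (WithTop.coe_le_coe.mp hn) (hsmono (Nat.lt_succ_self n))⟩
    -- a fixed point above `a` and below `l` is impossible
    have hkey : ∀ c : A, a < c → f c = c → (c : WithTop A) < l → False := by
      intro c hac hfc hcl
      have : ∀ n, s n < c := by
        intro n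
        induction n with
        | zero => exact hac
        | succ n ih => rw [hsucc, ← hfc]; exact hfmono ih
      exact absurd (hlmin (c : WithTop A) (fun n => WithTop.coe_lt_coe.mpr (this n)))
        (not_le.mpr hcl)
    have hL : Lad l := ⟨s, hLadl⟩
    have hc := lad_spec hL
    obtain ⟨hcm, hclt, hccof⟩ := hc
    have hal : (a : WithTop A) < l := hlU 0
    induction hlt' : l with
    | top =>
      rw [hlt'] at hL hcm hclt hccof hal
      obtain ⟨k, hk⟩ := hccof a hal
      refine hkey (lad ⊤ k) hk ?_ (by rw [hlt']; exact WithTop.coe_lt_top _)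
      have hrel : Rel X (2 * k + 3) (lad (⊤ : WithTop A) k) (lad (⊤ : WithTop A) k) :=
        (rel_top X k _ _).mpr ⟨rfl, hL, rfl⟩
      obtain ⟨y, hy, hxy⟩ := hD.left _ _ _ hrel (f (lad ⊤ k)) (hfmem _)
      exact ((rel_top X' k _ _).mp hxy).2.2
    | coe m =>
      rw [hlt'] at hL hcm hclt hccof hal hLadl
      have hbelow : ∀ x : A, x < m → f x < m := by
        intro x hx
        obtain ⟨n, hn⟩ := hLadl.2.2 x (WithTop.coe_lt_coe.mpr hx)
        have h1 : f x < s (n + 1) := by rw [hsucc]; exact hfmono hn
        exact h1.trans (WithTop.coe_lt_coe.mp (hLadl.2.1 (n + 1)))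
      have hclt' : ∀ k, lad (m : WithTop A) k < m := fun k => WithTop.coe_lt_coe.mp (hclt k)
      have hrel : ∀ k, Rel X (2 * k + 2) (lad (m : WithTop A) k) m :=
        fun k => (rel_lad X k _ _).mpr ⟨hL, rfl⟩
      -- every element of `D m` is a limit and its ladder is in `D (lad m k)`
      have hup : ∀ y ∈ D m, Lad (y : WithTop A) ∧
          ∀ k, lad (y : WithTop A) k ∈ D (lad (m : WithTop A) k) := by
        intro y hy
        have h : ∀ k, Lad (y : WithTop A) ∧
            lad (y : WithTop A) k ∈ D (lad (m : WithTop A) k) := by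
          intro k
          obtain ⟨x, hx, hxy⟩ := hD.right _ _ _ (hrel k) y hy
          obtain ⟨h1, h2⟩ := (rel_lad X' k _ _).mp hxy
          exact ⟨h1, h2 ▸ hx⟩
        exact ⟨(h 0).1, fun k => (h k).2⟩
      have hdown : ∀ k, ∀ x ∈ D (lad (m : WithTop A) k), ∃ y ∈ D m, x = lad (y : WithTop A) k := by
        intro k x hx
        obtain ⟨y, hy, hxy⟩ := hD.left _ _ _ (hrel k) x hx
        exact ⟨y, hy, ((rel_lad X' k _ _).mp hxy).2⟩
      -- `f m = m`
      have hfm : f m = m := by
        by_contra hfm
        have hlt2 : m < f m := lt_of_le_of_ne hfmono.le_apply (Ne.symm hfm)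
        obtain ⟨h1, h2⟩ := hup (f m) (hfmem m)
        obtain ⟨k, hk⟩ := (lad_spec h1).2.2 m (WithTop.coe_lt_coe.mpr hlt2)
        have h3 : lad (f m : WithTop A) k ≤ f (lad (m : WithTop A) k) := hfle _ _ (h2 k)
        have h4 := hbelow _ (hclt' k)
        exact absurd (hk.trans_le h3) (not_lt.mpr h4.le)
      -- eventually the ladder dominates the finitely many smaller elements of `D m`
      have hev : ∃ k0, ∀ y ∈ D m, y < m → y < lad (m : WithTop A) k0 := by
        have : ∀ y : A, ∃ k, y < m → y < lad (m : WithTop A) k := by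
          intro y
          by_cases hy : y < m
          · obtain ⟨k, hk⟩ := hccof y (WithTop.coe_lt_coe.mpr hy)
            exact ⟨k, fun _ => hk⟩
          · exact ⟨0, fun h => absurd h hy⟩
        choose K hK using this
        refine ⟨(D m).sup K, fun y hy hym => ?_⟩
        exact (hK y hym).trans_le (hcm.monotone (Finset.le_sup hy))
      obtain ⟨k0, hk0⟩ := hev
      obtain ⟨k1, hk1⟩ := hccof a hal
      set k := max k0 k1 with hk
      have hk0' : ∀ y ∈ D m, y < m → y < lad (m : WithTop A) k :=
        fun y hy hym => (hk0 y hy hym).trans_le (hcm.monotone (le_max_left _ _))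
      have hk1' : a < lad (m : WithTop A) k := hk1.trans_le (hcm.monotone (le_max_right _ _))
      refine hkey (lad (m : WithTop A) k) hk1' ?_ (by rw [hlt']; exact hclt k)
      obtain ⟨y, hy, hfy⟩ := hdown k (f (lad (m : WithTop A) k)) (hfmem _)
      have hle : y ≤ m := hfm ▸ hfle m y hy
      rcases hle.lt_or_eq with hlt3 | heq
      · exfalso
        have h1 : lad (y : WithTop A) k < y :=
          WithTop.coe_lt_coe.mp ((lad_spec (hup y hy).1).2.1 k)
        have h2 := hk0' y hy hlt3
        have h3 : lad (m : WithTop A) k ≤ f (lad (m : WithTop A) k) := hfmono.le_apply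
        rw [hfy] at h3
        exact absurd (h1.trans h2) (not_lt.mpr h3)
      · rw [hfy, heq]
  have hgid : ∀ a, g a = a := fun a => le_antisymm
    ((hgle a _ (hfmem a)).trans (hfid a).le) hgmono.le_apply
  apply Finset.eq_singleton_iff_unique_mem.mpr
  refine ⟨by have := hfmem a; rwa [hfid a] at this, fun x hx => le_antisymm ?_ ?_⟩
  · have := hfle a x hx; rwa [hfid a] at this
  · have := hgle a x hx; rwa [hgid a] at this

end

end H91R2.EndRat
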