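import Mathlib

/-!
# Cones of polynomial-valued functions coding a family of relations
-/

open Polynomial

namespace H91R2.EndRat

universe u

theorem exists_theta : ∃ t : ℝ, 0 < t ∧ Transcendental ℚ t := by
  have hc : ({x : ℝ | IsAlgebraic ℚ x} : Set ℝ).Countable := Algebraic.countable ℚ ℝ
  have hu : ¬ (Set.Ioi (0 : ℝ)).Countable := by
    intro h
    have := Cardinal.mk_Ioi_real 0
    have h2 : Cardinal.mk (Set.Ioi (0 : ℝ)) ≤ Cardinal.aleph0 := Cardinal.le_aleph0_iff_set_countable.mpr h
    rw [this] at h2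
    exact absurd h2 (not_le.mpr Cardinal.aleph0_lt_continuum)
  by_contra hcon
  push Not at hcon
  apply hu
  refine hc.mono ?_
  intro x hx
  by_contra h
  exact hcon x hx h

/-- a positive transcendental number. -/
noncomputable def theta : ℝ := Classical.choose exists_theta

theorem theta_pos : 0 < theta := (Classical.choose_spec exists_theta).1

theorem theta_tr : Transcendental ℚ theta := (Classical.choose_spec exists_theta).2

/-- evaluation at `theta`. -/
noncomputable def ev : ℚ[X] →ₗ[ℚ] ℝ := (aeval theta : ℚ[X] →ₐ[ℚ] ℝ).toLinearMap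

theorem ev_inj : Function.Injective ev := transcendental_iff_injective.mp theta_tr

theorem ev_one : ev 1 = 1 := by simp [ev]

theorem ev_X_mul (p : ℚ[X]) : ev (X * p) = theta * ev p := by simp [ev]

theorem ev_X_pow (n : ℕ) : ev (X ^ n) = theta ^ n := by simp [ev]

theorem ev_X_pow_pos (n : ℕ) : 0 < ev (X ^ n : ℚ[X]) := by
  rw [ev_X_pow]; exact pow_pos theta_pos n

/-- index set: vertices and labelled edges -/
abbrev Idx (A : Type u) := A ⊕ (ℕ × A × A)

abbrev Amb (A : Type u) := Idx A →₀ ℚ[X]

section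

variable {A : Type u}

open Classical in
noncomputable def srcF (k : ℕ) (c : A) : Amb A →ₗ[ℚ] ℚ :=
  Finsupp.lsum ℚ fun i => match i with
    | Sum.inl _ => 0
    | Sum.inr (l, a, _) => if l = k ∧ a = c then Polynomial.lcoeff ℚ 3 else 0

open Classical in
noncomputable def tgtF (k : ℕ) (c : A) : Amb A →ₗ[ℚ] ℚ :=
  Finsupp.lsum ℚ fun i => match i with
    | Sum.inl _ => 0
    | Sum.inr (l, _, b) => if l = k ∧ b = c then Polynomial.lcoeff ℚ 5 else 0

theorem srcF_single_inl (k : ℕ) (c a : A) (p : ℚ[X]) :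
    srcF k c (Finsupp.single (Sum.inl a) p) = 0 := by
  simp [srcF]

theorem tgtF_single_inl (k : ℕ) (c a : A) (p : ℚ[X]) :
    tgtF k c (Finsupp.single (Sum.inl a) p) = 0 := by
  simp [tgtF]

open Classical in
theorem srcF_single_inr (k l : ℕ) (c a b : A) (p : ℚ[X]) :
    srcF k c (Finsupp.single (Sum.inr (l, a, b)) p) = if l = k ∧ a = c then p.coeff 3 else 0 := by
  simp only [srcF, Finsupp.lsum_single]
  split_ifs <;> simp

open Classical in
theorem tgtF_single_inr (k l : ℕ) (c a b : A) (p : ℚ[X]) :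
    tgtF k c (Finsupp.single (Sum.inr (l, a, b)) p) = if l = k ∧ b = c then p.coeff 5 else 0 := by
  simp only [tgtF, Finsupp.lsum_single]
  split_ifs <;> simp

/-- allowed exponents at vertices -/
def VE (n : ℕ) : Prop := n = 0 ∨ n = 1 ∨ (7 ≤ n ∧ n % 2 = 1)

/-- allowed exponents at edges -/
def EE (n : ℕ) : Prop := n = 0 ∨ n = 1 ∨ n = 3 ∨ n = 5

/-- The `ℚ`-space attached to a family of relations. -/
noncomputable def Vs (R : ℕ → A → A → Prop) : Submodule ℚ (Amb A) where
  carrier := {x | (∀ a n, ¬ VE n → (x (Sum.inl a)).coeff n = 0) ∧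
    (∀ e n, ¬ EE n → (x (Sum.inr e)).coeff n = 0) ∧
    (∀ k a b, ¬ R k a b → x (Sum.inr (k, a, b)) = 0) ∧
    (∀ k c, (x (Sum.inl c)).coeff (4 * k + 7) = srcF k c x) ∧
    (∀ k c, (x (Sum.inl c)).coeff (4 * k + 9) = tgtF k c x)}
  zero_mem' := by simp
  add_mem' := by
    rintro x y ⟨h1, h2, h3, h4, h5⟩ ⟨h1', h2', h3', h4', h5'⟩
    refine ⟨fun a n hn => ?_, fun a n hn => ?_, fun k a b h => ?_, fun k c => ?_, fun k c => ?_⟩
    · simp [h1 a n hn, h1' a n hn]
    · simp [h2 a n hn, h2' a n hn]
    · simp [h3 k a b h, h3' k a b h]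
    · simp [h4 k c, h4' k c]
    · simp [h5 k c, h5' k c]
  smul_mem' := by
    rintro q x ⟨h1, h2, h3, h4, h5⟩
    refine ⟨fun a n hn => ?_, fun a n hn => ?_, fun k a b h => ?_, fun k c => ?_, fun k c => ?_⟩
    · simp [h1 a n hn]
    · simp [h2 a n hn]
    · simp [h3 k a b h]
    · simp [h4 k c]
    · simp [h5 k c]

theorem mem_Vs (R : ℕ → A → A → Prop) (x : Amb A) : x ∈ Vs R ↔
    ((∀ a n, ¬ VE n → (x (Sum.inl a)).coeff n = 0) ∧
    (∀ e n, ¬ EE n → (x (Sum.inr e)).coeff n = 0) ∧
    (∀ k a b, ¬ R k a b → x (Sum.inr (k, a, b)) = 0) ∧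
    (∀ k c, (x (Sum.inl c)).coeff (4 * k + 7) = srcF k c x) ∧
    (∀ k c, (x (Sum.inl c)).coeff (4 * k + 9) = tgtF k c x)) := Iff.rfl

/-- The cone (with zero) attached to a family of relations. -/
noncomputable def Cn (R : ℕ → A → A → Prop) : AddSubmonoid (Amb A) where
  carrier := {x | x ∈ Vs R ∧ ∀ i, 0 ≤ ev (x i)}
  zero_mem' := ⟨(Vs R).zero_mem, fun i => by simp⟩
  add_mem' := by
    rintro x y ⟨h1, h2⟩ ⟨h1', h2'⟩
    refine ⟨(Vs R).add_mem h1 h1', fun i => ?_⟩
    rw [Finsupp.add_apply, map_add]
    exact add_nonneg (h2 i) (h2' i)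

theorem mem_Cn (R : ℕ → A → A → Prop) (x : Amb A) :
    x ∈ Cn R ↔ x ∈ Vs R ∧ ∀ i, 0 ≤ ev (x i) := Iff.rfl

theorem smul_mem_Cn {R : ℕ → A → A → Prop} {x : Amb A} (hx : x ∈ Cn R) {q : ℚ} (hq : 0 ≤ q) :
    q • x ∈ Cn R := by
  refine ⟨(Vs R).smul_mem q hx.1, fun i => ?_⟩
  rw [Finsupp.smul_apply, map_smul, Rat.smul_def]
  exact mul_nonneg (by exact_mod_cast hq) (hx.2 i)

/-- valid indices -/
def Valid (R : ℕ → A → A → Prop) : Idx A → Prop
  | Sum.inl _ => True
  | Sum.inr (k, a, b) => R k a b

theorem ne_zero_valid {R : ℕ → A → A → Prop} {x : Amb A} (hx : x ∈ Cn R) {i : Idx A}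
    (hi : x i ≠ 0) : Valid R i := by
  rcases i with a | ⟨k, a, b⟩
  · trivial
  · by_contra h
    exact hi (hx.1.2.2.1 k a b h)

theorem single_mem {R : ℕ → A → A → Prop} {i : Idx A} (hi : Valid R i) {p : ℚ[X]}
    (hp : ∀ n, 2 ≤ n → p.coeff n = 0) (hpos : 0 ≤ ev p) : Finsupp.single i p ∈ Cn R := by
  classical
  have hVE : ∀ n, ¬ VE n → p.coeff n = 0 := fun n hn => hp n (by
    by_contra h; apply hn; unfold VE; omega)
  have hEE : ∀ n, ¬ EE n → p.coeff n = 0 := fun n hn => hp n (by
    by_contra h; apply hn; unfold EE; omega)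
  refine ⟨?_, fun j => ?_⟩
  · rcases i with a | ⟨k, a, b⟩
    · refine ⟨fun c n hn => ?_, fun e n hn => ?_, fun l c d h => ?_, fun l c => ?_, fun l c => ?_⟩
      · rw [Finsupp.single_apply]; split_ifs
        · exact hVE n hn
        · simp
      · simp
      · simp
      · rw [srcF_single_inl, Finsupp.single_apply]; split_ifs
        · exact hp _ (by omega)
        · simp
      · rw [tgtF_single_inl, Finsupp.single_apply]; split_ifs
        · exact hp _ (by omega)
        · simp
    · refine ⟨fun c n hn => ?_, fun e n hn => ?_, fun l c d h => ?_, fun l c => ?_, fun l c => ?_⟩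
      · simp
      · rw [Finsupp.single_apply]; split_ifs
        · exact hEE n hn
        · simp
      · rw [Finsupp.single_apply]; split_ifs with heq
        · exfalso; apply h
          have heq' := Sum.inr_injective heq
          simp only [Prod.mk.injEq] at heq'
          obtain ⟨rfl, rfl, rfl⟩ := heq'
          exact hi
        · rfl
      · rw [srcF_single_inr]; simp [hp 3 (by norm_num)]
      · rw [tgtF_single_inr]; simp [hp 5 (by norm_num)]
  · rw [Finsupp.single_apply]; split_ifs
    · exact hpos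
    · simp

theorem w1_mem {R : ℕ → A → A → Prop} {k : ℕ} {a b : A} (h : R k a b) :
    (Finsupp.single (Sum.inl a) (X ^ (4 * k + 7)) + Finsupp.single (Sum.inr (k, a, b)) (X ^ 3) :
      Amb A) ∈ Cn R := by
  classical
  refine ⟨⟨fun c n hn => ?_, fun e n hn => ?_, fun l c d h' => ?_, fun l c => ?_, fun l c => ?_⟩,
    fun j => ?_⟩
  · rw [Finsupp.add_apply, Finsupp.single_apply, Finsupp.single_apply]
    simp only [reduceCtorEq, if_false, add_zero]
    split_ifs
    · rw [coeff_X_pow, if_neg]
      rintro rfl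
      apply hn; unfold VE; omega
    · simp
  · rw [Finsupp.add_apply, Finsupp.single_apply, Finsupp.single_apply]
    simp only [reduceCtorEq, if_false, zero_add]
    split_ifs
    · rw [coeff_X_pow, if_neg]
      rintro rfl
      apply hn; unfold EE; omega
    · simp
  · rw [Finsupp.add_apply, Finsupp.single_apply, Finsupp.single_apply]
    simp only [reduceCtorEq, if_false, zero_add]
    split_ifs with heq
    · exfalso; apply h'
      have heq' := Sum.inr_injective heq
      simp only [Prod.mk.injEq] at heq'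
      obtain ⟨rfl, rfl, rfl⟩ := heq'
      exact h
    · rfl
  · rw [map_add, srcF_single_inl, srcF_single_inr, Finsupp.add_apply, Finsupp.single_apply,
      Finsupp.single_apply]
    simp only [reduceCtorEq, if_false, add_zero, zero_add, Sum.inl.injEq]
    by_cases hac : a = c
    · by_cases hkl : k = l
      · simp [hac, hkl]
      · simp only [hac, hkl, if_true, false_and, if_false]
        rw [coeff_X_pow, if_neg]; omega
    · simp [hac]
  · rw [map_add, tgtF_single_inl, tgtF_single_inr, Finsupp.add_apply, Finsupp.single_apply,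
      Finsupp.single_apply]
    simp only [reduceCtorEq, if_false, add_zero, zero_add, Sum.inl.injEq]
    have h1 : ((X : ℚ[X]) ^ 3).coeff 5 = 0 := by rw [coeff_X_pow, if_neg]; norm_num
    rw [h1]
    split_ifs
    · rw [coeff_X_pow, if_neg]; omega
    · rw [coeff_X_pow, if_neg]; omega
    · simp
    · simp
  · rw [Finsupp.add_apply, map_add, Finsupp.single_apply, Finsupp.single_apply]
    apply add_nonneg
    · split_ifs
      · exact (ev_X_pow_pos _).le
      · simp
    · split_ifs
      · exact (ev_X_pow_pos _).le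
      · simp

theorem w2_mem {R : ℕ → A → A → Prop} {k : ℕ} {a b : A} (h : R k a b) :
    (Finsupp.single (Sum.inl b) (X ^ (4 * k + 9)) + Finsupp.single (Sum.inr (k, a, b)) (X ^ 5) :
      Amb A) ∈ Cn R := by
  classical
  refine ⟨⟨fun c n hn => ?_, fun e n hn => ?_, fun l c d h' => ?_, fun l c => ?_, fun l c => ?_⟩,
    fun j => ?_⟩
  · rw [Finsupp.add_apply, Finsupp.single_apply, Finsupp.single_apply]
    simp only [reduceCtorEq, if_false, add_zero]
    split_ifs
    · rw [coeff_X_pow, if_neg]
      rintro rfl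
      apply hn; unfold VE; omega
    · simp
  · rw [Finsupp.add_apply, Finsupp.single_apply, Finsupp.single_apply]
    simp only [reduceCtorEq, if_false, zero_add]
    split_ifs
    · rw [coeff_X_pow, if_neg]
      rintro rfl
      apply hn; unfold EE; omega
    · simp
  · rw [Finsupp.add_apply, Finsupp.single_apply, Finsupp.single_apply]
    simp only [reduceCtorEq, if_false, zero_add]
    split_ifs with heq
    · exfalso; apply h'
      have heq' := Sum.inr_injective heq
      simp only [Prod.mk.injEq] at heq'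
      obtain ⟨rfl, rfl, rfl⟩ := heq'
      exact h
    · rfl
  · rw [map_add, srcF_single_inl, srcF_single_inr, Finsupp.add_apply, Finsupp.single_apply,
      Finsupp.single_apply]
    simp only [reduceCtorEq, if_false, add_zero, zero_add, Sum.inl.injEq]
    have h1 : ((X : ℚ[X]) ^ 5).coeff 3 = 0 := by rw [coeff_X_pow, if_neg]; norm_num
    rw [h1]
    split_ifs
    · rw [coeff_X_pow, if_neg]; omega
    · rw [coeff_X_pow, if_neg]; omega
    · simp
    · simp
  · rw [map_add, tgtF_single_inl, tgtF_single_inr, Finsupp.add_apply, Finsupp.single_apply,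
      Finsupp.single_apply]
    simp only [reduceCtorEq, if_false, add_zero, zero_add, Sum.inl.injEq]
    by_cases hac : b = c
    · by_cases hkl : k = l
      · simp [hac, hkl]
      · simp only [hac, hkl, if_true, false_and, if_false]
        rw [coeff_X_pow, if_neg]; omega
    · simp [hac]
  · rw [Finsupp.add_apply, map_add, Finsupp.single_apply, Finsupp.single_apply]
    apply add_nonneg
    · split_ifs
      · exact (ev_X_pow_pos _).le
      · simp
    · split_ifs
      · exact (ev_X_pow_pos _).le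
      · simp

end

end H91R2.EndRat
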