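import Mathlib

/-!
# Commutative semigroups with additive rational endomorphism semigroup: definitions
-/

namespace H91R2.EndRat

universe u

/-- `ppow x n` is the power `x ^ (n + 1)` in a semigroup. -/
def ppow {S : Type u} [Mul S] (x : S) : ℕ → S
  | 0 => x
  | (n + 1) => ppow x n * x

/-- All power maps `x ↦ x ^ (n + 1)` are bijective. -/
def UniqDiv (S : Type u) [Mul S] : Prop := ∀ n : ℕ, Function.Bijective (fun x : S => ppow x n)

/-- `φ` is a positive rational power map: for some `p, q`, `φ(x) ^ (q + 1) = x ^ (p + 1)` for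
all `x`. -/
def IsRatPow {S : Type u} [Mul S] (φ : S → S) : Prop := ∃ p q : ℕ, ∀ x, ppow (φ x) q = ppow x p

/-- `S` has a nonzero homomorphism to `(ℚ_{≥0}, +)`. -/
def HasRatHom (S : Type u) [Mul S] : Prop :=
  ∃ f : S → ℚ, (∀ x, 0 ≤ f x) ∧ (∀ x y, f (x * y) = f x + f y) ∧ ∃ x, f x ≠ 0

/-- `S` is finitely generated up to roots: for some finite `G ⊆ S`, every element has a power in
the subsemigroup generated by `G`. -/
def FinGenRoots (S : Type u) [Mul S] : Prop :=
  ∃ G : Set S, G.Finite ∧ ∀ x : S, ∃ n : ℕ, ppow x n ∈ Subsemigroup.closure G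

/-- `End(S)` with pointwise product is isomorphic to `(ℚ_{>0}, +)`. -/
def SolPos (S : Type u) [CommSemigroup S] : Prop :=
  Nonempty ((S →ₙ* S) ≃* Multiplicative {q : ℚ // 0 < q})

/-- `End(S)` with pointwise product is isomorphic to `(ℚ_{≥0}, +)`. -/
def SolNonneg (S : Type u) [CommSemigroup S] : Prop :=
  Nonempty ((S →ₙ* S) ≃* Multiplicative ℚ≥0)

/-- `S` is cancellative. -/
def Cancel (S : Type u) [Mul S] : Prop := ∀ x y z : S, x * y = x * z → y = z

/-- Isomorphism of commutative semigroup structures on the set `A`, restricted to the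
structures satisfying `P`. -/
def isoSetoid (A : Type u) (P : CommSemigroup A → Prop) : Setoid {s : CommSemigroup A // P s} where
  r s t := Nonempty (@MulEquiv A A s.1.toMul t.1.toMul)
  iseqv := ⟨fun s => ⟨@MulEquiv.refl A s.1.toMul⟩,
    fun {s t} h => ⟨@MulEquiv.symm A A s.1.toMul t.1.toMul h.some⟩,
    fun {s t v} h h' => ⟨@MulEquiv.trans A A A s.1.toMul t.1.toMul v.1.toMul h.some h'.some⟩⟩

/-- The number of isomorphism types of commutative semigroups with underlying set `A` that
satisfy `P`. -/
noncomputable def isoCount (A : Type u) (P : CommSemigroup A → Prop) : Cardinal.{u} :=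
  Cardinal.mk (Quotient (isoSetoid A P))

end H91R2.EndRat
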