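import Pool.Agent.H91R2.EndRat.Uniq
import Pool.Agent.H91R2.EndRat.Gordan

/-!
# Semigroups that are finitely generated up to roots
-/

namespace H91R2.EndRat

universe u

section

variable {S : Type u} [CommSemigroup S]

/-- monomials with nonnegative rational exponents -/
noncomputable def mon {n : ℕ} (s : Fin n → S) (a : Fin n → ℚ≥0) : WithOne S :=
  ∏ i, rp (s i : WithOne S) (a i)

theorem mon_add (hM : UD (WithOne S)) {n : ℕ} (s : Fin n → S) (a b : Fin n → ℚ≥0) :
    mon s (a + b) = mon s a * mon s b := by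
  unfold mon
  rw [← Finset.prod_mul_distrib]
  exact Finset.prod_congr rfl fun i _ => rp_add hM _ _ _

theorem rp_prod (hM : UD (WithOne S)) {ι : Type} (t : Finset ι) (f : ι → WithOne S) (q : ℚ≥0) :
    rp (∏ i ∈ t, f i) q = ∏ i ∈ t, rp (f i) q := by
  classical
  induction t using Finset.induction_on with
  | empty => simp [rp_one_base hM]
  | insert i t hi ih => rw [Finset.prod_insert hi, Finset.prod_insert hi, rp_mul hM, ih]

theorem mon_smul (hM : UD (WithOne S)) {n : ℕ} (s : Fin n → S) (a : Fin n → ℚ≥0) (q : ℚ≥0) :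
    mon s (q • a) = rp (mon s a) q := by
  unfold mon
  rw [rp_prod hM]
  refine Finset.prod_congr rfl fun i _ => ?_
  rw [rp_rp hM, Pi.smul_apply, smul_eq_mul, mul_comm]

theorem mon_zero (hM : UD (WithOne S)) {n : ℕ} (s : Fin n → S) : mon s 0 = 1 := by
  unfold mon
  exact Finset.prod_eq_one fun i _ => rp_zero hM _

open Classical in
theorem mon_single (hM : UD (WithOne S)) {n : ℕ} (s : Fin n → S) (i : Fin n) :
    mon s (Pi.single i 1) = (s i : WithOne S) := by
  unfold mon
  rw [Finset.prod_eq_single i]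
  · rw [Pi.single_eq_same, rp_one hM]
  · intro j _ hj
    rw [Pi.single_eq_of_ne hj, rp_zero hM]
  · intro h; exact absurd (Finset.mem_univ i) h

theorem mon_surj (hS : UniqDiv S) {n : ℕ} (s : Fin n → S)
    (hs : ∀ x : S, ∃ m : ℕ, ppow x m ∈ Subsemigroup.closure (Set.range s)) (x : S) :
    ∃ a : Fin n → ℚ≥0, mon s a = (x : WithOne S) := by
  classical
  have hM := UD_withOne hS
  have h1 : ∀ y ∈ Subsemigroup.closure (Set.range s),
      ∃ a : Fin n → ℚ≥0, mon s a = (y : WithOne S) := by
    intro y hy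
    induction hy using Subsemigroup.closure_induction with
    | mem z hz =>
      obtain ⟨i, rfl⟩ := hz
      exact ⟨Pi.single i 1, mon_single hM s i⟩
    | mul z w _ _ h1 h2 =>
      obtain ⟨a, ha⟩ := h1
      obtain ⟨b, hb⟩ := h2
      exact ⟨a + b, by rw [mon_add hM, ha, hb, WithOne.coe_mul]⟩
  obtain ⟨m, hm⟩ := hs x
  obtain ⟨a, ha⟩ := h1 _ hm
  have hm0 : ((m + 1 : ℕ) : ℚ≥0) ≠ 0 := by exact_mod_cast Nat.succ_ne_zero m
  refine ⟨((m + 1 : ℕ) : ℚ≥0)⁻¹ • a, ?_⟩
  rw [mon_smul hM, ha, coe_ppow, ← rp_nat hM, rp_rp hM, mul_inv_cancel₀ hm0, rp_one hM]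

theorem fg_alternative [Nonempty S] (hS : UniqDiv S) (hfg : FinGenRoots S) :
    HasRatHom S ∨ ∃ y : S, y * y = y ∧ ∀ x, ∃ z, x * z = y := by
  classical
  have hM := UD_withOne hS
  obtain ⟨G, hG, hgen⟩ := hfg
  obtain ⟨x₀⟩ : Nonempty S := inferInstance
  -- enumerate the generators
  obtain ⟨n, s, hs⟩ : ∃ (n : ℕ) (s : Fin n → S), Set.range s = G := by
    have hf := hG.fintype
    let e := (Fintype.equivFin G).symm
    refine ⟨Fintype.card G, fun i => (e i : S), ?_⟩
    ext x
    constructor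
    · rintro ⟨i, rfl⟩; exact (e i).2
    · intro hx; exact ⟨e.symm ⟨x, hx⟩, by simp⟩
  subst hs
  have hsurj := mon_surj hS s hgen
  have hn : 0 < n := by
    rcases Nat.eq_zero_or_pos n with h | h
    · subst h
      obtain ⟨a, ha⟩ := hsurj x₀
      have h0 : mon s a = 1 := by unfold mon; simp
      rw [h0] at ha
      exact absurd ha.symm WithOne.coe_ne_one
    · exact h
  -- relation space
  let L : Submodule ℚ (Fin n → ℚ) :=
    { carrier := {v | ∃ a b : Fin n → ℚ≥0, (∀ i, v i = (a i : ℚ) - (b i : ℚ)) ∧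
        mon s a = mon s b}
      zero_mem' := ⟨0, 0, fun i => by simp, rfl⟩
      add_mem' := by
        rintro v w ⟨a, b, h1, h2⟩ ⟨c, d, h3, h4⟩
        refine ⟨a + c, b + d, fun i => ?_, by rw [mon_add hM, mon_add hM, h2, h4]⟩
        simp only [Pi.add_apply, h1, h3, NNRat.coe_add]
        ring
      smul_mem' := by
        rintro q v ⟨a, b, h1, h2⟩
        rcases le_total 0 q with hq | hq
        · obtain ⟨r, hr⟩ : ∃ r : ℚ≥0, (r : ℚ) = q := ⟨⟨q, hq⟩, rfl⟩
          refine ⟨r • a, r • b, fun i => ?_, ?_⟩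
          · simp only [Pi.smul_apply, smul_eq_mul, h1, NNRat.coe_mul, hr]
            ring
          · rw [mon_smul hM, mon_smul hM, h2]
        · have hq' : 0 ≤ -q := by linarith
          obtain ⟨r, hr⟩ : ∃ r : ℚ≥0, (r : ℚ) = -q := ⟨⟨-q, hq'⟩, rfl⟩
          refine ⟨r • b, r • a, fun i => ?_, ?_⟩
          · simp only [Pi.smul_apply, smul_eq_mul, h1, NNRat.coe_mul, hr]
            ring
          · rw [mon_smul hM, mon_smul hM, h2] }
  rcases gordan n L hn with ⟨v, ⟨a, b, hab, hE⟩, hv⟩ | ⟨c, hc0, ⟨i0, hi0⟩, hc⟩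
  · right
    set w : Fin n → ℚ≥0 := fun i => ⟨v i, (hv i).le⟩ with hw
    have hwv : ∀ i, ((w i : ℚ≥0) : ℚ) = v i := fun i => rfl
    have hw0 : ∀ i, w i ≠ 0 := by
      intro i h
      have : ((w i : ℚ≥0) : ℚ) = 0 := by rw [h]; rfl
      rw [hwv] at this
      exact (hv i).ne' this
    have haw : a = b + w := by
      funext i
      apply NNRat.coe_inj.mp
      rw [Pi.add_apply, NNRat.coe_add, hwv, hab]; ring
    have hbw : mon s b * mon s w = mon s b := by
      rw [← mon_add hM, ← haw, hE]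
    -- every exponent vector is dominated by a multiple of w
    have hdom : ∀ d : Fin n → ℚ≥0, ∃ N : ℕ, ∀ M, N ≤ M → ∃ r : Fin n → ℚ≥0,
        (M : ℚ≥0) • w = d + r := by
      intro d
      have h1 : ∀ i, ∃ N : ℕ, d i ≤ N * w i := by
        intro i
        obtain ⟨N, hN⟩ := exists_nat_gt (d i / w i)
        refine ⟨N, ?_⟩
        rw [div_lt_iff₀ (pos_iff_ne_zero.mpr (hw0 i))] at hN
        exact hN.le
      choose N hN using h1
      refine ⟨Finset.univ.sup N, fun M hM' => ⟨fun i => (M : ℚ≥0) * w i - d i, ?_⟩⟩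
      funext i
      have h2 : N i ≤ M := (Finset.le_sup (Finset.mem_univ i)).trans hM'
      have h3 : (N i : ℚ≥0) ≤ M := by exact_mod_cast h2
      have h4 : d i ≤ (M : ℚ≥0) * w i := (hN i).trans (mul_le_mul_of_nonneg_right h3 (w i).2)
      rw [Pi.add_apply, Pi.smul_apply, smul_eq_mul]
      exact (add_tsub_cancel_of_le h4).symm
    -- the element with exponent vector w
    obtain ⟨y, hy⟩ : ∃ y : S, (y : WithOne S) = mon s w := by
      rcases withOne_cases (mon s w) with h | ⟨z, hz⟩
      · exfalso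
        -- then all monomials divide 1
        obtain ⟨d, hd⟩ := hsurj x₀
        obtain ⟨N, hN⟩ := hdom d
        obtain ⟨r, hr⟩ := hN N le_rfl
        have h1 : mon s ((N : ℚ≥0) • w) = 1 := by rw [mon_smul hM, h, rp_one_base hM]
        rw [hr, mon_add hM, hd] at h1
        obtain ⟨y, hy⟩ := exists_coe_mul x₀ (mon s r)
        rw [← hy] at h1
        exact WithOne.coe_ne_one h1
      · exact ⟨z, hz.symm⟩
    obtain ⟨N, hN⟩ := hdom b
    obtain ⟨r, hr⟩ := hN N le_rfl
    have hpow : ∀ M : ℕ, mon s ((M : ℚ≥0) • w) = (y : WithOne S) ^ M := by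
      intro M; rw [mon_smul hM, rp_nat hM, hy]
    have h1 : (y : WithOne S) ^ N * y = (y : WithOne S) ^ N := by
      rw [← hpow, hr, mon_add hM, hy, mul_right_comm, hbw]
    have h2 : ppow y N = ppow y (N + 1) := by
      apply WithOne.coe_injective
      rw [coe_ppow, coe_ppow, pow_succ, h1, pow_succ, pow_succ, h1, h1]
    obtain ⟨k, hk⟩ := exists_idem (Nat.lt_succ_self N) h2
    refine ⟨ppow y k, hk, fun x => ?_⟩
    obtain ⟨d, hd⟩ := hsurj x
    obtain ⟨N', hN'⟩ := hdom d
    -- a power of the idempotent dominating d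
    obtain ⟨r', hr'⟩ := hN' ((k + 1) * (N' + 1)) (by nlinarith)
    have h3 : ((ppow y k : S) : WithOne S) ^ (N' + 1) = (ppow y k : S) := by
      rw [← coe_ppow, ppow_idem hk]
    have h4 : (x : WithOne S) * mon s r' = ((ppow y k : S) : WithOne S) := by
      rw [← hd, ← mon_add hM, ← hr', hpow, pow_mul, ← coe_ppow, h3]
    obtain ⟨z, hz⟩ := exists_coe_mul (ppow y k) (mon s r')
    refine ⟨z, ?_⟩
    apply WithOne.coe_injective
    rw [WithOne.coe_mul, hz, mul_left_comm, h4, ← WithOne.coe_mul, hk]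
  · left
    choose A hA using hsurj
    have hval : ∀ a b : Fin n → ℚ≥0, mon s a = mon s b →
        ∑ i, c i * (a i : ℚ) = ∑ i, c i * (b i : ℚ) := by
      intro a b h
      have h1 := hc (fun i => (a i : ℚ) - (b i : ℚ)) ⟨a, b, fun i => rfl, h⟩
      have h2 : ∑ i, c i * ((a i : ℚ) - (b i : ℚ)) =
          ∑ i, c i * (a i : ℚ) - ∑ i, c i * (b i : ℚ) := by
        rw [← Finset.sum_sub_distrib]
        exact Finset.sum_congr rfl fun i _ => by ring
      rw [h2] at h1
      linarith
    refine ⟨fun x => ∑ i, c i * (A x i : ℚ), fun x => ?_, fun x y => ?_, s i0, ?_⟩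
    · exact Finset.sum_nonneg fun i _ => mul_nonneg (hc0 i) (NNRat.coe_nonneg _)
    · have h1 : mon s (A (x * y)) = mon s (A x + A y) := by
        rw [mon_add hM, hA, hA, hA, WithOne.coe_mul]
      dsimp only
      rw [hval _ _ h1, ← Finset.sum_add_distrib]
      refine Finset.sum_congr rfl fun i _ => ?_
      rw [Pi.add_apply, NNRat.coe_add]; ring
    · have h1 : mon s (A (s i0)) = mon s (Pi.single i0 1) := by
        rw [hA, mon_single hM]
      dsimp only
      rw [hval _ _ h1, Finset.sum_eq_single i0]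
      · rw [Pi.single_eq_same]; simpa using hi0
      · intro j _ hj
        rw [Pi.single_eq_of_ne hj]; simp
      · intro h; exact absurd (Finset.mem_univ _) h

theorem solPos_fg (h : SolPos S) (hfg : FinGenRoots S) :
    Nonempty (S ≃* Multiplicative {q : ℚ // 0 < q}) := by
  obtain ⟨hnt, hS, hE⟩ := solPos_forward h
  rcases fg_alternative hS hfg with h1 | ⟨y, hy, _⟩
  · exact (solPos_unique h).mp h1
  · exact absurd hy (no_idem hnt hS hE y)

theorem solNonneg_fg (h : SolNonneg S) (hfg : FinGenRoots S) :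
    Nonempty (S ≃* Multiplicative ℚ≥0) := by
  obtain ⟨hnt, hS, e, he, hE⟩ := solNonneg_forward h
  rcases fg_alternative hS hfg with h1 | ⟨y, hy, hz⟩
  · exact (solNonneg_unique h).mp h1
  · exfalso
    have hye : y = e := idem_eq hnt hS hE y hy
    rw [hye] at hz
    choose inv hinv using hz
    have huniq : ∀ x z, x * z = e → z = inv x := by
      intro x z hxz
      calc z = e * z := (he z).symm
        _ = (x * inv x) * z := by rw [hinv]
        _ = inv x * (x * z) := by rw [mul_comm x (inv x), mul_assoc]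
        _ = inv x := by rw [hxz, mul_comm, he]
    let φ : S →ₙ* S :=
      { toFun := inv
        map_mul' := fun x z => by
          symm
          apply huniq
          rw [mul_mul_mul_comm, hinv, hinv, he] }
    obtain ⟨x, hx⟩ := exists_ne e
    rcases hE φ with h1 | ⟨p, q, h1⟩
    · apply hx
      have h2 := hinv x
      have h3 : inv x = e := h1 x
      rw [h3, mul_comm, he] at h2
      exact h2
    · -- x ^ (p + 1) * x ^ (q + 1) = e
      have h2 : ppow (x * inv x) q = ppow x q * ppow (inv x) q := by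
        apply WithOne.coe_injective
        rw [WithOne.coe_mul, coe_ppow, coe_ppow, coe_ppow, WithOne.coe_mul, mul_pow]
      rw [hinv, ppow_idem (he e)] at h2
      have h3 : ppow (inv x) q = ppow x p := h1 x
      rw [h3] at h2
      have h4 : ppow x (q + p + 1) = e := by
        apply WithOne.coe_injective
        rw [h2, WithOne.coe_mul, coe_ppow, coe_ppow, coe_ppow, ← pow_add]
        congr 1; omega
      apply hx
      apply (hS (q + p + 1)).1
      dsimp only
      rw [h4, ppow_idem (he e)]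

end

end H91R2.EndRat
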