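import Pool.Agent.H91R2.EndRat.FinGen
import Pool.Agent.H91R2.EndRat.Count

/-!
# Assembly
-/

namespace H91R2.EndRat

universe u

section rational

variable {S : Type u} [CommSemigroup S]

theorem toAdd_ppow_pos (x : Multiplicative {q : ℚ // 0 < q}) (n : ℕ) :
    (ppow x n).toAdd.1 = (n + 1) * x.toAdd.1 := by
  induction n with
  | zero => simp [ppow]
  | succ n ih =>
    have h : (ppow x (n + 1)).toAdd.1 = (ppow x n).toAdd.1 + x.toAdd.1 := rfl
    rw [h, ih]; push_cast; ring

theorem toAdd_ppow_nonneg (x : Multiplicative ℚ≥0) (n : ℕ) :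
    (ppow x n).toAdd = (n + 1) * x.toAdd := by
  induction n with
  | zero => simp [ppow]
  | succ n ih =>
    have h : (ppow x (n + 1)).toAdd = (ppow x n).toAdd + x.toAdd := rfl
    rw [h, ih]; push_cast; ring

theorem solPos_rat : SolPos (Multiplicative {q : ℚ // 0 < q}) := by
  apply solPos_backward
  · refine ⟨Multiplicative.ofAdd ⟨1, one_pos⟩, Multiplicative.ofAdd ⟨2, two_pos⟩, fun h => ?_⟩
    have h1 := congrArg (fun z : Multiplicative {q : ℚ // 0 < q} => z.toAdd.1) h
    have h2 : (1 : ℚ) = 2 := h1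
    norm_num at h2
  · intro n
    have hn : (0 : ℚ) < n + 1 := by positivity
    constructor
    · intro x y h
      have h1 := congrArg (fun z : Multiplicative {q : ℚ // 0 < q} => z.toAdd.1) h
      have h2 : (ppow x n).toAdd.1 = (ppow y n).toAdd.1 := h1
      rw [toAdd_ppow_pos, toAdd_ppow_pos] at h2
      exact Multiplicative.toAdd.injective (Subtype.ext (mul_left_cancel₀ hn.ne' h2))
    · intro y
      refine ⟨Multiplicative.ofAdd ⟨y.toAdd.1 / (n + 1), div_pos y.toAdd.2 hn⟩, ?_⟩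
      apply Multiplicative.toAdd.injective
      apply Subtype.ext
      dsimp only
      rw [toAdd_ppow_pos]
      show ((n : ℚ) + 1) * (y.toAdd.1 / (n + 1)) = y.toAdd.1
      field_simp
  · intro φ
    set o : Multiplicative {q : ℚ // 0 < q} := Multiplicative.ofAdd ⟨1, one_pos⟩ with ho
    set c : ℚ := (φ o).toAdd.1 with hc
    have hcpos : 0 < c := (φ o).toAdd.2
    have hlin : ∀ x, (φ x).toAdd.1 = c * x.toAdd.1 := by
      intro x
      have hxpos : 0 < x.toAdd.1 := x.toAdd.2
      have hnum : 0 < x.toAdd.1.num := Rat.num_pos.mpr hxpos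
      obtain ⟨a, ha⟩ : ∃ a : ℕ, x.toAdd.1.num = a + 1 := ⟨(x.toAdd.1.num - 1).toNat, by omega⟩
      obtain ⟨b, hb⟩ : ∃ b : ℕ, x.toAdd.1.den = b + 1 :=
        ⟨x.toAdd.1.den - 1, by have := x.toAdd.1.den_pos; omega⟩
      have hx : ((b : ℚ) + 1) * x.toAdd.1 = a + 1 := by
        have h1 : (x.toAdd.1.num : ℚ) / x.toAdd.1.den = x.toAdd.1 := Rat.num_div_den _
        rw [ha, hb] at h1
        push_cast at h1
        have hb0 : (b : ℚ) + 1 ≠ 0 := by positivity
        rw [div_eq_iff hb0] at h1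
        linarith
      have h2 : ppow x b = ppow o a := by
        apply Multiplicative.toAdd.injective
        apply Subtype.ext
        rw [toAdd_ppow_pos, toAdd_ppow_pos, hx]
        show (a : ℚ) + 1 = (a + 1) * 1
        ring
      have h3 := congrArg (fun z => (φ z).toAdd.1) h2
      have h4 : (φ (ppow x b)).toAdd.1 = (φ (ppow o a)).toAdd.1 := h3
      rw [map_ppow, map_ppow, toAdd_ppow_pos, toAdd_ppow_pos, ← hc, ← hx] at h4
      have hb0 : (b : ℚ) + 1 ≠ 0 := by positivity
      have h5 : ((b : ℚ) + 1) * (φ x).toAdd.1 = ((b : ℚ) + 1) * (c * x.toAdd.1) := by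
        rw [h4]; ring
      exact mul_left_cancel₀ hb0 h5
    have hnum : 0 < c.num := Rat.num_pos.mpr hcpos
    obtain ⟨a, ha⟩ : ∃ a : ℕ, c.num = a + 1 := ⟨(c.num - 1).toNat, by omega⟩
    obtain ⟨b, hb⟩ : ∃ b : ℕ, c.den = b + 1 := ⟨c.den - 1, by have := c.den_pos; omega⟩
    refine ⟨a, b, fun x => ?_⟩
    apply Multiplicative.toAdd.injective
    apply Subtype.ext
    rw [toAdd_ppow_pos, toAdd_ppow_pos, hlin]
    have h1 : (c.num : ℚ) / c.den = c := Rat.num_div_den _
    rw [ha, hb] at h1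
    push_cast at h1
    have hb0 : (b : ℚ) + 1 ≠ 0 := by positivity
    rw [div_eq_iff hb0] at h1
    rw [h1]; ring

theorem solNonneg_rat : SolNonneg (Multiplicative ℚ≥0) := by
  have hlin : ∀ (φ : Multiplicative ℚ≥0 →ₙ* Multiplicative ℚ≥0),
      ∀ x, (φ x).toAdd = (φ (Multiplicative.ofAdd 1)).toAdd * x.toAdd := by
    intro φ
    have h0 : (φ 1).toAdd = 0 := by
      have h1 : φ 1 * φ 1 = φ 1 := by rw [← map_mul, one_mul]
      have h2 : (φ 1).toAdd + (φ 1).toAdd = (φ 1).toAdd + 0 := by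
        rw [add_zero]; exact congrArg Multiplicative.toAdd h1
      exact add_left_cancel h2
    intro x
    set o : Multiplicative ℚ≥0 := Multiplicative.ofAdd 1 with ho
    by_cases hx : x.toAdd.num = 0
    · have h1 : x = 1 := by
        apply Multiplicative.toAdd.injective
        rw [← NNRat.num_div_den x.toAdd, hx]; simp
      rw [h1, h0]; simp
    · obtain ⟨a, ha⟩ : ∃ a : ℕ, x.toAdd.num = a + 1 := ⟨x.toAdd.num - 1, by omega⟩
      obtain ⟨b, hb⟩ : ∃ b : ℕ, x.toAdd.den = b + 1 :=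
        ⟨x.toAdd.den - 1, by have := x.toAdd.den_pos; omega⟩
      have hb0 : (b : ℚ≥0) + 1 ≠ 0 := by positivity
      have hx : ((b : ℚ≥0) + 1) * x.toAdd = a + 1 := by
        have h1 : (x.toAdd.num : ℚ≥0) / x.toAdd.den = x.toAdd := NNRat.num_div_den _
        rw [ha, hb] at h1
        push_cast at h1
        rw [div_eq_iff hb0] at h1
        rw [h1, mul_comm]
      have h2 : ppow x b = ppow o a := by
        apply Multiplicative.toAdd.injective
        rw [toAdd_ppow_nonneg, toAdd_ppow_nonneg, hx, ho, toAdd_ofAdd, mul_one]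
      have h3 : φ (ppow x b) = φ (ppow o a) := by rw [h2]
      rw [map_ppow, map_ppow] at h3
      have h4 := congrArg Multiplicative.toAdd h3
      rw [toAdd_ppow_nonneg, toAdd_ppow_nonneg, ← hx] at h4
      apply mul_left_cancel₀ hb0
      rw [h4]; ring
  apply solNonneg_backward (e := 1)
  · refine ⟨Multiplicative.ofAdd 0, Multiplicative.ofAdd 1, fun h => ?_⟩
    have h1 : (0 : ℚ≥0) = 1 := Multiplicative.ofAdd.injective h
    exact zero_ne_one h1
  · intro n
    have hn : (n : ℚ≥0) + 1 ≠ 0 := by positivity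
    constructor
    · intro x y h
      have h1 : (ppow x n).toAdd = (ppow y n).toAdd := congrArg Multiplicative.toAdd h
      rw [toAdd_ppow_nonneg, toAdd_ppow_nonneg] at h1
      exact Multiplicative.toAdd.injective (mul_left_cancel₀ hn h1)
    · intro y
      refine ⟨Multiplicative.ofAdd (y.toAdd / (n + 1)), ?_⟩
      apply Multiplicative.toAdd.injective
      dsimp only
      rw [toAdd_ppow_nonneg, toAdd_ofAdd]
      field_simp
  · intro x; exact one_mul x
  · intro φ
    set c : ℚ≥0 := (φ (Multiplicative.ofAdd 1)).toAdd with hc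
    by_cases hc0 : c.num = 0
    · left
      intro x
      have h1 : c = 0 := by rw [← NNRat.num_div_den c, hc0]; simp
      apply Multiplicative.toAdd.injective
      rw [hlin, ← hc, h1, zero_mul]; rfl
    · right
      obtain ⟨a, ha⟩ : ∃ a : ℕ, c.num = a + 1 := ⟨c.num - 1, by omega⟩
      obtain ⟨b, hb⟩ : ∃ b : ℕ, c.den = b + 1 := ⟨c.den - 1, by have := c.den_pos; omega⟩
      refine ⟨a, b, fun x => ?_⟩
      apply Multiplicative.toAdd.injective
      rw [toAdd_ppow_nonneg, toAdd_ppow_nonneg, hlin, ← hc]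
      have h1 : (c.num : ℚ≥0) / c.den = c := NNRat.num_div_den _
      rw [ha, hb] at h1
      push_cast at h1
      have hb0 : (b : ℚ≥0) + 1 ≠ 0 := by positivity
      rw [div_eq_iff hb0] at h1
      rw [h1]; ring


theorem ppow_mem_closure (G : Set S) {x : S} (hx : x ∈ Subsemigroup.closure G) (n : ℕ) :
    ppow x n ∈ Subsemigroup.closure G := by
  induction n with
  | zero => exact hx
  | succ n ih => exact mul_mem ih hx

theorem finGen_of_pos (g : S ≃* Multiplicative {q : ℚ // 0 < q}) : FinGenRoots S := by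
  set o : Multiplicative {q : ℚ // 0 < q} := Multiplicative.ofAdd ⟨1, one_pos⟩ with ho
  refine ⟨{g.symm o}, Set.finite_singleton _, fun y => ?_⟩
  set x := g y with hxdef
  have hxpos : 0 < x.toAdd.1 := x.toAdd.2
  have hnum : 0 < x.toAdd.1.num := Rat.num_pos.mpr hxpos
  obtain ⟨a, ha⟩ : ∃ a : ℕ, x.toAdd.1.num = a + 1 := ⟨(x.toAdd.1.num - 1).toNat, by omega⟩
  obtain ⟨b, hb⟩ : ∃ b : ℕ, x.toAdd.1.den = b + 1 :=
    ⟨x.toAdd.1.den - 1, by have := x.toAdd.1.den_pos; omega⟩
  have hx : ((b : ℚ) + 1) * x.toAdd.1 = a + 1 := by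
    have h1 : (x.toAdd.1.num : ℚ) / x.toAdd.1.den = x.toAdd.1 := Rat.num_div_den _
    rw [ha, hb] at h1
    push_cast at h1
    have hb0 : (b : ℚ) + 1 ≠ 0 := by positivity
    rw [div_eq_iff hb0] at h1
    linarith
  have h2 : ppow x b = ppow o a := by
    apply Multiplicative.toAdd.injective
    apply Subtype.ext
    rw [toAdd_ppow_pos, toAdd_ppow_pos, hx]
    show (a : ℚ) + 1 = (a + 1) * 1
    ring
  refine ⟨b, ?_⟩
  have h3 : ppow y b = ppow (g.symm o) a := by
    apply g.injective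
    have e1 : g (ppow y b) = ppow (g y) b := map_ppow g.toMulHom b y
    have e2 : g (ppow (g.symm o) a) = ppow (g (g.symm o)) a := map_ppow g.toMulHom a (g.symm o)
    rw [e1, e2, MulEquiv.apply_symm_apply, ← hxdef, h2]
  have hmem : g.symm o ∈ ({g.symm o} : Set S) := Set.mem_singleton _
  rw [h3]
  exact ppow_mem_closure _ (Subsemigroup.subset_closure hmem) a

theorem finGen_of_nonneg (g : S ≃* Multiplicative ℚ≥0) : FinGenRoots S := by
  set o : Multiplicative ℚ≥0 := Multiplicative.ofAdd 1 with ho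
  refine ⟨{g.symm o, g.symm 1}, (Set.finite_singleton _).insert _, fun y => ?_⟩
  set x := g y with hxdef
  by_cases hx : x.toAdd.num = 0
  · have h1 : x = 1 := by
      apply Multiplicative.toAdd.injective
      rw [← NNRat.num_div_den x.toAdd, hx]; simp
    refine ⟨0, ?_⟩
    have h2 : y = g.symm 1 := by rw [← h1, hxdef, MulEquiv.symm_apply_apply]
    have hmem : y ∈ ({g.symm o, g.symm 1} : Set S) := by
      rw [h2]; exact Set.mem_insert_of_mem _ (Set.mem_singleton _)
    exact Subsemigroup.subset_closure hmem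
  · obtain ⟨a, ha⟩ : ∃ a : ℕ, x.toAdd.num = a + 1 := ⟨x.toAdd.num - 1, by omega⟩
    obtain ⟨b, hb⟩ : ∃ b : ℕ, x.toAdd.den = b + 1 :=
      ⟨x.toAdd.den - 1, by have := x.toAdd.den_pos; omega⟩
    have hb0 : (b : ℚ≥0) + 1 ≠ 0 := by positivity
    have hx : ((b : ℚ≥0) + 1) * x.toAdd = a + 1 := by
      have h1 : (x.toAdd.num : ℚ≥0) / x.toAdd.den = x.toAdd := NNRat.num_div_den _
      rw [ha, hb] at h1
      push_cast at h1
      rw [div_eq_iff hb0] at h1
      rw [h1, mul_comm]
    have h2 : ppow x b = ppow o a := by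
      apply Multiplicative.toAdd.injective
      rw [toAdd_ppow_nonneg, toAdd_ppow_nonneg, hx, ho, toAdd_ofAdd, mul_one]
    refine ⟨b, ?_⟩
    have h3 : ppow y b = ppow (g.symm o) a := by
      apply g.injective
      have e1 : g (ppow y b) = ppow (g y) b := map_ppow g.toMulHom b y
      have e2 : g (ppow (g.symm o) a) = ppow (g (g.symm o)) a := map_ppow g.toMulHom a (g.symm o)
      rw [e1, e2, MulEquiv.apply_symm_apply, ← hxdef, h2]
    have hmem : g.symm o ∈ ({g.symm o, g.symm 1} : Set S) := Set.mem_insert _ _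
    rw [h3]
    exact ppow_mem_closure _ (Subsemigroup.subset_closure hmem) a

/-- The tame part for `ℚ_{>0}`. -/
theorem tame_pos (S : Type u) [CommSemigroup S] :
    ((SolPos S ∧ HasRatHom S) ↔ Nonempty (S ≃* Multiplicative {q : ℚ // 0 < q})) ∧
      ((SolPos S ∧ FinGenRoots S) ↔ Nonempty (S ≃* Multiplicative {q : ℚ // 0 < q})) := by
  refine ⟨⟨fun h => (solPos_unique h.1).mp h.2, ?_⟩, ⟨fun h => solPos_fg h.1 h.2, ?_⟩⟩
  · rintro ⟨g⟩
    have h : SolPos S := solPos_rat.of_equiv g.symm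
    exact ⟨h, (solPos_unique h).mpr ⟨g⟩⟩
  · rintro ⟨g⟩
    exact ⟨solPos_rat.of_equiv g.symm, finGen_of_pos g⟩

/-- The tame part for `ℚ_{≥0}`. -/
theorem tame_nonneg (S : Type u) [CommSemigroup S] :
    ((SolNonneg S ∧ HasRatHom S) ↔ Nonempty (S ≃* Multiplicative ℚ≥0)) ∧
      ((SolNonneg S ∧ FinGenRoots S) ↔ Nonempty (S ≃* Multiplicative ℚ≥0)) := by
  refine ⟨⟨fun h => (solNonneg_unique h.1).mp h.2, ?_⟩, ⟨fun h => solNonneg_fg h.1 h.2, ?_⟩⟩
  · rintro ⟨g⟩
    have h : SolNonneg S := solNonneg_rat.of_equiv g.symm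
    exact ⟨h, (solNonneg_unique h).mpr ⟨g⟩⟩
  · rintro ⟨g⟩
    exact ⟨solNonneg_rat.of_equiv g.symm, finGen_of_nonneg g⟩

end rational

section cancel

theorem Cancel.of_equiv {S T : Type u} [Mul S] [Mul T] (e : S ≃* T) (h : Cancel S) :
    Cancel T := by
  intro x y z hxyz
  apply e.symm.injective
  apply h (e.symm x)
  rw [← map_mul, ← map_mul, hxyz]

theorem cancel_posC {A : Type u} (R : ℕ → A → A → Prop) : Cancel (PosC R) := by
  intro x y z h
  have h1 : (x.1 : Amb A) + (y.1 : Amb A) = (x.1 : Amb A) + (z.1 : Amb A) :=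
    congrArg (fun w : PosC R => (w.1 : Amb A)) h
  exact Subtype.ext (Subtype.ext (add_left_cancel h1))

theorem cancel_nonnegC {A : Type u} (R : ℕ → A → A → Prop) :
    Cancel (Multiplicative (Cn R)) := by
  intro x y z h
  have h1 : (x.toAdd : Amb A) + (y.toAdd : Amb A) = (x.toAdd : Amb A) + (z.toAdd : Amb A) :=
    congrArg (fun w : Multiplicative (Cn R) => (w.toAdd : Amb A)) h
  exact Multiplicative.toAdd.injective (Subtype.ext (add_left_cancel h1))

theorem wild_pos (A : Type u) [Infinite A] :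
    isoCount A (fun s => @SolPos A s) = 2 ^ Cardinal.mk A ∧
      isoCount A (fun s => @SolPos A s ∧ @Cancel A s.toMul) = 2 ^ Cardinal.mk A := by
  refine ⟨isoCount_solPos A, ?_⟩
  classical
  obtain ⟨r, hr⟩ := exists_wellFoundedLT A
  let _ := r
  have : WellFoundedLT A := hr
  exact isoCount_eq A (fun S s => @SolPos S s ∧ @Cancel S s.toMul)
    (fun S T s t e h => ⟨@SolPos.of_equiv S T s t e h.1, @Cancel.of_equiv S T s.toMul t.toMul e h.2⟩)
    (fun X => PosC (Rel X)) (fun X => inferInstance) (fun X => mk_PosC _)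
    (fun X => ⟨solPos_posC X, cancel_posC _⟩) (fun X Y h => posC_iso X Y h)

theorem wild_nonneg (A : Type u) [Infinite A] :
    isoCount A (fun s => @SolNonneg A s) = 2 ^ Cardinal.mk A ∧
      isoCount A (fun s => @SolNonneg A s ∧ @Cancel A s.toMul) = 2 ^ Cardinal.mk A := by
  refine ⟨isoCount_solNonneg A, ?_⟩
  classical
  obtain ⟨r, hr⟩ := exists_wellFoundedLT A
  let _ := r
  have : WellFoundedLT A := hr
  exact isoCount_eq A (fun S s => @SolNonneg S s ∧ @Cancel S s.toMul)
    (fun S T s t e h => ⟨@SolNonneg.of_equiv S T s t e h.1,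
      @Cancel.of_equiv S T s.toMul t.toMul e h.2⟩)
    (fun X => Multiplicative (Cn (Rel X))) (fun X => inferInstance) (fun X => mk_NonnegC _)
    (fun X => ⟨solNonneg_nonnegC X, cancel_nonnegC _⟩) (fun X Y h => nonnegC_iso X Y h)

end cancel

end H91R2.EndRat
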