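import Pool.Agent.H91R2.EndRat.Cone

/-!
# Homomorphisms between the cones are given by rational matrices
-/

open Polynomial

namespace H91R2.EndRat

universe u

variable {A : Type u} {R R' : ℕ → A → A → Prop}

theorem one_coeff (n : ℕ) (hn : 2 ≤ n) : (1 : ℚ[X]).coeff n = 0 := by
  rw [coeff_one, if_neg]; omega

open Classical in
/-- the basic elements -/
noncomputable def el (R : ℕ → A → A → Prop) (i : Idx A) : Cn R :=
  if h : Valid R i then ⟨Finsupp.single i 1, single_mem h one_coeff (by rw [ev_one]; norm_num)⟩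
  else 0

theorem el_coe {i : Idx A} (h : Valid R i) : (el R i : Amb A) = Finsupp.single i 1 := by
  unfold el; rw [dif_pos h]

open Classical in
theorem sum_el_apply (x : Cn R) (u : Idx A → ℕ) (j : Idx A) :
    ((∑ i ∈ (x : Amb A).support, u i • el R i : Cn R) : Amb A) j =
      if j ∈ (x : Amb A).support then (u j : ℚ[X]) else 0 := by
  rw [AddSubmonoid.coe_finsetSum, Finsupp.finsetSum_apply]
  have : ∀ i ∈ (x : Amb A).support, ((u i • el R i : Cn R) : Amb A) j =
      if j = i then (u j : ℚ[X]) else 0 := by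
    intro i hi
    have hv : Valid R i := ne_zero_valid x.2 (Finsupp.mem_support_iff.mp hi)
    rw [AddSubmonoidClass.coe_nsmul, el_coe hv, Finsupp.smul_apply, Finsupp.single_apply]
    by_cases h : i = j
    · subst h; simp
    · rw [if_neg h, if_neg (Ne.symm h)]; simp
  rw [Finset.sum_congr rfl this]
  simp

theorem ev_natCast (n : ℕ) : ev (n : ℚ[X]) = n := by
  have : ((n : ℕ) : ℚ[X]) = (n : ℕ) • (1 : ℚ[X]) := by simp
  rw [this, map_nsmul, ev_one]; simp

theorem F_formula (F : Cn R →+ ℝ) (hF : ∀ x, 0 ≤ F x) (x : Cn R) :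
    F x = ∑ i ∈ (x : Amb A).support, ev ((x : Amb A) i) * F (el R i) := by
  classical
  set S := (x : Amb A).support with hS
  set T := ∑ i ∈ S, ev ((x : Amb A) i) * F (el R i) with hT
  set K := ∑ i ∈ S, F (el R i) with hK
  have hK0 : 0 ≤ K := Finset.sum_nonneg fun i _ => hF _
  have key : ∀ N : ℕ, (N : ℝ) * F x ≥ N * T - K ∧ (N : ℝ) * F x ≤ N * T + K := by
    intro N
    set u : Idx A → ℕ := fun i => ⌊(N : ℝ) * ev ((x : Amb A) i)⌋₊ with hu
    have hupos : ∀ i, 0 ≤ (N : ℝ) * ev ((x : Amb A) i) :=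
      fun i => mul_nonneg (Nat.cast_nonneg _) (x.2.2 i)
    have hu1 : ∀ i, (u i : ℝ) ≤ (N : ℝ) * ev ((x : Amb A) i) := fun i => Nat.floor_le (hupos i)
    have hu2 : ∀ i, (N : ℝ) * ev ((x : Amb A) i) < u i + 1 := fun i => Nat.lt_floor_add_one _
    set y : Cn R := ∑ i ∈ S, u i • el R i with hy
    set y' : Cn R := ∑ i ∈ S, (u i + 1) • el R i with hy'
    have hyj : ∀ j, (y : Amb A) j = if j ∈ S then (u j : ℚ[X]) else 0 :=
      fun j => sum_el_apply x u j
    have hyj' : ∀ j, (y' : Amb A) j = if j ∈ S then ((u j + 1 : ℕ) : ℚ[X]) else 0 :=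
      fun j => sum_el_apply x (fun i => u i + 1) j
    have hxj : ∀ j, ((N • x : Cn R) : Amb A) j = N • (x : Amb A) j := by
      intro j; rw [AddSubmonoidClass.coe_nsmul, Finsupp.smul_apply]
    have hevx : ∀ j, ev (((N • x : Cn R) : Amb A) j) = N * ev ((x : Amb A) j) := by
      intro j; rw [hxj, map_nsmul, nsmul_eq_mul]
    have hx0 : ∀ j, j ∉ S → (x : Amb A) j = 0 := fun j hj => Finsupp.notMem_support_iff.mp hj
    have hz : ((N • x : Cn R) : Amb A) - (y : Amb A) ∈ Cn R := by
      refine ⟨(Vs R).sub_mem (N • x).2.1 y.2.1, fun j => ?_⟩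
      rw [Finsupp.sub_apply, map_sub, hevx, hyj]
      split_ifs with hj
      · rw [ev_natCast]; linarith [hu1 j]
      · rw [hx0 j hj]; simp
    have hz' : (y' : Amb A) - ((N • x : Cn R) : Amb A) ∈ Cn R := by
      refine ⟨(Vs R).sub_mem y'.2.1 (N • x).2.1, fun j => ?_⟩
      rw [Finsupp.sub_apply, map_sub, hevx, hyj']
      split_ifs with hj
      · rw [ev_natCast]; push_cast; linarith [hu2 j]
      · rw [hx0 j hj]; simp
    have e1 : N • x = y + ⟨_, hz⟩ := by
      apply Subtype.ext; simp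
    have e2 : y' = N • x + ⟨_, hz'⟩ := by
      apply Subtype.ext; simp
    have f1 : (N : ℝ) * F x = F y + F ⟨_, hz⟩ := by
      have := congrArg F e1
      rwa [map_add, map_nsmul, nsmul_eq_mul] at this
    have f2 : F y' = (N : ℝ) * F x + F ⟨_, hz'⟩ := by
      have := congrArg F e2
      rwa [map_add, map_nsmul, nsmul_eq_mul] at this
    have g1 : F y = ∑ i ∈ S, (u i : ℝ) * F (el R i) := by
      rw [hy, map_sum]
      exact Finset.sum_congr rfl fun i _ => by rw [map_nsmul, nsmul_eq_mul]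
    have g2 : F y' = ∑ i ∈ S, ((u i : ℝ) + 1) * F (el R i) := by
      rw [hy', map_sum]
      exact Finset.sum_congr rfl fun i _ => by rw [map_nsmul, nsmul_eq_mul]; push_cast; ring
    have s1 : N * T - K ≤ F y := by
      rw [g1, hT, hK, Finset.mul_sum, ← Finset.sum_sub_distrib]
      apply Finset.sum_le_sum
      intro i _
      nlinarith [hF (el R i), hu2 i]
    have s2 : F y' ≤ N * T + K := by
      rw [g2, hT, hK, Finset.mul_sum, ← Finset.sum_add_distrib]
      apply Finset.sum_le_sum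
      intro i _
      nlinarith [hF (el R i), hu1 i]
    constructor
    · linarith [hF ⟨_, hz⟩]
    · linarith [hF ⟨_, hz'⟩]
  by_contra hne
  rcases lt_or_gt_of_ne hne with h | h
  · obtain ⟨N, hN⟩ := exists_nat_gt (K / (T - F x))
    have hpos : 0 < T - F x := by linarith
    rw [div_lt_iff₀ hpos] at hN
    have := (key N).1
    nlinarith
  · obtain ⟨N, hN⟩ := exists_nat_gt (K / (F x - T))
    have hpos : 0 < F x - T := by linarith
    rw [div_lt_iff₀ hpos] at hN
    have := (key N).2
    nlinarith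

/-- evaluation of a coordinate as a nonnegative functional. -/
noncomputable def coordF (R : ℕ → A → A → Prop) (j : Idx A) : Cn R →+ ℝ where
  toFun x := ev ((x : Amb A) j)
  map_zero' := by simp
  map_add' x y := by simp

theorem coordF_nonneg (j : Idx A) (x : Cn R) : 0 ≤ coordF R j x := x.2.2 j

/-- the exponents allowed at an index -/
def AE : Idx A → ℕ → Prop
  | Sum.inl _, n => VE n
  | Sum.inr _, n => EE n

theorem AE_coeff {x : Amb A} (hx : x ∈ Cn R) (i : Idx A) (n : ℕ) (hn : ¬ AE i n) :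
    (x i).coeff n = 0 := by
  rcases i with a | e
  · exact hx.1.1 a n hn
  · exact hx.1.2.1 e n hn

theorem AE_succ (i : Idx A) (n : ℕ) (h1 : AE i n) (h2 : AE i (n + 1)) : n = 0 := by
  rcases i with a | e
  · simp only [AE, VE] at h1 h2; omega
  · simp only [AE, EE] at h1 h2; omega

/-- The matrix of a homomorphism. -/
noncomputable def mat (φ : Cn R →+ Cn R') (j i : Idx A) : ℚ := ((φ (el R i) : Amb A) j).coeff 0

theorem hom_formula_ev (φ : Cn R →+ Cn R') (x : Cn R) (j : Idx A) :
    ev ((φ x : Amb A) j) =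
      ∑ i ∈ (x : Amb A).support, ev ((x : Amb A) i) * ev ((φ (el R i) : Amb A) j) :=
  F_formula ((coordF R' j).comp φ) (fun x => coordF_nonneg j (φ x)) x

theorem phi_el_eq (φ : Cn R →+ Cn R') (i j : Idx A) :
    (φ (el R i) : Amb A) j = C (mat φ j i) := by
  classical
  by_cases hi : Valid R i
  · have hmem : Finsupp.single i (X : ℚ[X]) ∈ Cn R :=
      single_mem hi (fun n hn => by rw [coeff_X, if_neg]; omega)
        (by have := ev_X_pow_pos 1; rw [pow_one] at this; exact this.le)
    set x : Cn R := ⟨Finsupp.single i (X : ℚ[X]), hmem⟩ with hx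
    have h1 := hom_formula_ev φ x j
    have hsupp : (x : Amb A).support = {i} := Finsupp.support_single i (X_ne_zero)
    rw [hsupp, Finset.sum_singleton] at h1
    have h2 : (x : Amb A) i = X := by simp [hx]
    rw [h2] at h1
    have h3 : ev (X : ℚ[X]) = theta := by have := ev_X_pow 1; simpa using this
    rw [h3, ← ev_X_mul] at h1
    have h4 : (φ x : Amb A) j = X * (φ (el R i) : Amb A) j := ev_inj h1
    ext n
    rw [coeff_C]
    split_ifs with hn
    · subst hn; rfl
    · by_contra hne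
      have ha : AE j n := by
        by_contra h; exact hne (AE_coeff (φ (el R i)).2 j n h)
      have hb : AE j (n + 1) := by
        by_contra h
        have := AE_coeff (φ x).2 j (n + 1) h
        rw [h4, coeff_X_mul] at this
        exact hne this
      exact hn (AE_succ j n ha hb)
  · have : el R i = 0 := by unfold el; rw [dif_neg hi]
    simp [mat, this]

theorem mat_nonneg (φ : Cn R →+ Cn R') (i j : Idx A) : 0 ≤ mat φ j i := by
  have h := (φ (el R i)).2.2 j
  rw [phi_el_eq] at h
  have : ev (C (mat φ j i)) = ((mat φ j i : ℚ) : ℝ) := by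
    simp [ev]
  rw [this] at h
  exact_mod_cast h

theorem hom_formula (φ : Cn R →+ Cn R') (x : Cn R) (j : Idx A) :
    (φ x : Amb A) j = ∑ i ∈ (x : Amb A).support, mat φ j i • (x : Amb A) i := by
  apply ev_inj
  rw [hom_formula_ev, map_sum]
  refine Finset.sum_congr rfl fun i _ => ?_
  rw [phi_el_eq, map_smul, Rat.smul_def]
  have : ev (C (mat φ j i)) = ((mat φ j i : ℚ) : ℝ) := by
    simp [ev]
  rw [this, mul_comm]

/-- the image of a two-term element. -/
theorem hom_two (φ : Cn R →+ Cn R') {i₁ i₂ : Idx A} (hne : i₁ ≠ i₂) {p₁ p₂ : ℚ[X]}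
    (hp₁ : p₁ ≠ 0) (hp₂ : p₂ ≠ 0)
    (hmem : (Finsupp.single i₁ p₁ + Finsupp.single i₂ p₂ : Amb A) ∈ Cn R) (j : Idx A) :
    (φ ⟨_, hmem⟩ : Amb A) j = mat φ j i₁ • p₁ + mat φ j i₂ • p₂ := by
  classical
  rw [hom_formula]
  have hsupp : ((⟨_, hmem⟩ : Cn R) : Amb A).support = {i₁, i₂} := by
    ext i
    simp only [Finsupp.mem_support_iff, Finsupp.add_apply, Finsupp.single_apply,
      Finset.mem_insert, Finset.mem_singleton]
    by_cases h1 : i₁ = i
    · have h2 : i₂ ≠ i := fun h => hne (h1.trans h.symm)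
      simp [h1, h2, hp₁]
    · by_cases h2 : i₂ = i
      · simp [h1, h2, hp₂]
      · simp [h1, h2, Ne.symm h1, Ne.symm h2]
  rw [hsupp, Finset.sum_pair hne]
  have e1 : ((⟨_, hmem⟩ : Cn R) : Amb A) i₁ = p₁ := by
    simp [Ne.symm hne]
  have e2 : ((⟨_, hmem⟩ : Cn R) : Amb A) i₂ = p₂ := by
    simp [hne]
  rw [e1, e2]

end H91R2.EndRat
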