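import Pool.Agent.H91R2.EndRat.Defs

/-!
# Rational powers in uniquely divisible commutative monoids
-/

namespace H91R2.EndRat

universe u

/-- unique divisibility of a commutative monoid -/
def UD (M : Type u) [CommMonoid M] : Prop := ∀ n : ℕ, 0 < n → Function.Bijective (fun x : M => x ^ n)

section

variable {M : Type u} [CommMonoid M]

open Classical in
/-- rational power -/
noncomputable def rp (x : M) (q : ℚ≥0) : M :=
  if h : ∃ y : M, y ^ q.den = x ^ q.num then h.choose else x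

theorem rp_spec (hM : UD M) (x : M) (q : ℚ≥0) : (rp x q) ^ q.den = x ^ q.num := by
  have h : ∃ y : M, y ^ q.den = x ^ q.num := (hM q.den q.den_pos).2 (x ^ q.num)
  unfold rp
  rw [dif_pos h]
  exact h.choose_spec

theorem pow_inj (hM : UD M) {x y : M} {n : ℕ} (hn : 0 < n) (h : x ^ n = y ^ n) : x = y :=
  (hM n hn).1 h

theorem rel_unique (hM : UD M) {x y y' : M} {a b a' b' : ℕ} (hb : 0 < b) (hb' : 0 < b')
    (h : y ^ b = x ^ a) (h' : y' ^ b' = x ^ a') (hab : a * b' = a' * b) : y = y' := by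
  apply pow_inj hM (Nat.mul_pos hb hb')
  calc y ^ (b * b') = (y ^ b) ^ b' := pow_mul _ _ _
    _ = x ^ (a * b') := by rw [h, pow_mul]
    _ = x ^ (a' * b) := by rw [hab]
    _ = (y' ^ b') ^ b := by rw [h', pow_mul]
    _ = y' ^ (b * b') := by rw [← pow_mul, mul_comm]

theorem rp_unique (hM : UD M) {x y : M} {a b : ℕ} (hb : 0 < b) (h : y ^ b = x ^ a) {q : ℚ≥0}
    (hq : q = (a : ℚ≥0) / b) : y = rp x q := by
  refine rel_unique hM hb q.den_pos h (rp_spec hM x q) ?_
  have h1 : (q.num : ℚ≥0) / q.den = q := NNRat.num_div_den q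
  have hb0 : (b : ℚ≥0) ≠ 0 := by exact_mod_cast hb.ne'
  have hd0 : (q.den : ℚ≥0) ≠ 0 := by exact_mod_cast q.den_pos.ne'
  have h2 : (a : ℚ≥0) / b = (q.num : ℚ≥0) / q.den := by rw [h1, hq]
  rw [div_eq_div_iff hb0 hd0] at h2
  exact_mod_cast h2

theorem exists_frac (q : ℚ≥0) : ∃ a b : ℕ, 0 < b ∧ q = (a : ℚ≥0) / b :=
  ⟨q.num, q.den, q.den_pos, (NNRat.num_div_den q).symm⟩

theorem rp_rel (hM : UD M) (x : M) {q : ℚ≥0} {a b : ℕ} (hb : 0 < b)
    (hq : q = (a : ℚ≥0) / b) : (rp x q) ^ b = x ^ a := by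
  obtain ⟨y, hy⟩ := (hM b hb).2 (x ^ a)
  have hy' : y ^ b = x ^ a := hy
  rw [← rp_unique hM hb hy' hq]
  exact hy'

theorem rp_zero (hM : UD M) (x : M) : rp x 0 = 1 :=
  (rp_unique hM (a := 0) (b := 1) one_pos (by simp) (by simp)).symm

theorem rp_one (hM : UD M) (x : M) : rp x 1 = x :=
  (rp_unique hM (a := 1) (b := 1) one_pos (by simp) (by simp)).symm

theorem rp_nat (hM : UD M) (x : M) (n : ℕ) : rp x (n : ℚ≥0) = x ^ n :=
  (rp_unique hM (a := n) (b := 1) one_pos (by simp) (by simp)).symm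

theorem rp_add (hM : UD M) (x : M) (q r : ℚ≥0) : rp x (q + r) = rp x q * rp x r := by
  obtain ⟨a, b, hb, hq⟩ := exists_frac q
  obtain ⟨c, d, hd, hr⟩ := exists_frac r
  symm
  have hb0 : (b : ℚ≥0) ≠ 0 := by exact_mod_cast hb.ne'
  have hd0 : (d : ℚ≥0) ≠ 0 := by exact_mod_cast hd.ne'
  refine rp_unique hM (a := a * d + b * c) (b := b * d) (Nat.mul_pos hb hd) ?_ ?_
  · rw [mul_pow, pow_mul, rp_rel hM x hb hq, mul_comm b d, pow_mul, rp_rel hM x hd hr, pow_add,
      pow_mul, mul_comm b c, pow_mul]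
  · rw [hq, hr, div_add_div _ _ hb0 hd0]; push_cast; rfl

theorem rp_mul (hM : UD M) (x y : M) (q : ℚ≥0) : rp (x * y) q = rp x q * rp y q := by
  obtain ⟨a, b, hb, hq⟩ := exists_frac q
  symm
  refine rp_unique hM (a := a) (b := b) hb ?_ hq
  rw [mul_pow, rp_rel hM x hb hq, rp_rel hM y hb hq, mul_pow]

theorem rp_rp (hM : UD M) (x : M) (q r : ℚ≥0) : rp (rp x q) r = rp x (q * r) := by
  obtain ⟨a, b, hb, hq⟩ := exists_frac q
  obtain ⟨c, d, hd, hr⟩ := exists_frac r
  refine rp_unique hM (a := a * c) (b := b * d) (Nat.mul_pos hb hd) ?_ ?_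
  · rw [mul_comm b d, pow_mul, rp_rel hM _ hd hr, ← pow_mul, mul_comm c b, pow_mul,
      rp_rel hM x hb hq, pow_mul]
  · rw [hq, hr, div_mul_div_comm]; push_cast; rfl

theorem rp_one_base (hM : UD M) (q : ℚ≥0) : rp (1 : M) q = 1 := by
  obtain ⟨a, b, hb, hq⟩ := exists_frac q
  exact (rp_unique hM (a := a) (b := b) hb (by simp) hq).symm

/-- Key lemma: separativity for rational powers, first half. -/
theorem key_half (hM : UD M) {u v : M} {a : ℚ≥0} (ha : a ≠ 0) (h : v * rp u a = rp v (1 + a)) :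
    v * u = v * v := by
  have hn : ∀ n : ℕ, v * rp u (n * a) = rp v (1 + n * a) := by
    intro n
    induction n with
    | zero => simp [rp_zero hM, rp_one hM]
    | succ n ih =>
      have e1 : ((n + 1 : ℕ) : ℚ≥0) * a = n * a + a := by push_cast; ring
      have e2 : (1 : ℚ≥0) + (n * a + a) = n * a + (1 + a) := by ring
      rw [e1, rp_add hM, ← mul_assoc, ih, rp_add hM, rp_one hM, e2, rp_add hM (q := n * a), ← h]
      rw [mul_comm v (rp v (n * a)), mul_assoc]
  set N := a.num with hN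
  have hNpos : 0 < N := by
    rw [hN]
    exact Nat.pos_of_ne_zero (fun h0 => ha (by
      rw [← NNRat.num_div_den a, h0]; simp))
  have hNa : ((a.den : ℕ) : ℚ≥0) * a = N := by
    rw [hN]
    have : (a.num : ℚ≥0) / a.den = a := NNRat.num_div_den a
    have hd0 : (a.den : ℚ≥0) ≠ 0 := by exact_mod_cast a.den_pos.ne'
    rw [div_eq_iff hd0] at this
    rw [this, mul_comm]
  have h1 := hn a.den
  rw [hNa, rp_nat hM, rp_add hM, rp_one hM, rp_nat hM] at h1
  -- v * u ^ N = v * v ^ N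
  apply pow_inj hM hNpos
  obtain ⟨m, hm⟩ : ∃ m, N = m + 1 := ⟨N - 1, by omega⟩
  calc (v * u) ^ N = v ^ m * (v * u ^ N) := by
        rw [mul_pow, ← mul_assoc, ← pow_succ, ← hm]
    _ = v ^ m * (v * v ^ N) := by rw [h1]
    _ = (v * v) ^ N := by rw [mul_pow, ← mul_assoc, ← pow_succ, ← hm]

theorem key_eq (hM : UD M) {u v : M} {a b : ℚ≥0} (ha : a ≠ 0) (hb : b ≠ 0)
    (h : v * rp u a = rp v (1 + a)) (h' : u * rp v b = rp u (1 + b)) : u = v := by
  have h1 := key_half hM ha h
  have h2 := key_half hM hb h'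
  apply pow_inj hM (n := 2) two_pos
  rw [pow_two, pow_two, ← h1, ← h2, mul_comm]

end

section

variable {S : Type u} [CommSemigroup S]

omit [CommSemigroup S] in
theorem withOne_cases (w : WithOne S) : w = 1 ∨ ∃ z : S, w = (z : WithOne S) := by
  rcases eq_or_ne w 1 with h | h
  · exact Or.inl h
  · obtain ⟨z, hz⟩ := WithOne.ne_one_iff_exists.mp h
    exact Or.inr ⟨z, hz.symm⟩

theorem coe_ppow (x : S) (n : ℕ) : ((ppow x n : S) : WithOne S) = (x : WithOne S) ^ (n + 1) := by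
  induction n with
  | zero => simp [ppow]
  | succ n ih => rw [ppow, WithOne.coe_mul, ih, pow_succ (x : WithOne S) (n + 1)]

theorem exists_coe_mul (x : S) (w : WithOne S) : ∃ y : S, (y : WithOne S) = (x : WithOne S) * w := by
  rcases withOne_cases w with rfl | ⟨z, rfl⟩
  · exact ⟨x, by simp⟩
  · exact ⟨x * z, by simp⟩

theorem UD_withOne (h : ∀ n : ℕ, Function.Bijective (fun x : S => ppow x n)) :
    UD (WithOne S) := by
  intro n hn
  obtain ⟨m, rfl⟩ : ∃ m, n = m + 1 := ⟨n - 1, by omega⟩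
  constructor
  · intro x y hxy
    dsimp only at hxy
    rcases withOne_cases x with rfl | ⟨x, rfl⟩
    · rcases withOne_cases y with rfl | ⟨y, rfl⟩
      · rfl
      · rw [one_pow, ← coe_ppow] at hxy
        exact absurd hxy.symm WithOne.coe_ne_one
    · rcases withOne_cases y with rfl | ⟨y, rfl⟩
      · rw [one_pow, ← coe_ppow] at hxy
        exact absurd hxy WithOne.coe_ne_one
      · rw [← coe_ppow, ← coe_ppow] at hxy
        have := (h m).1 (WithOne.coe_inj.mp hxy)
        rw [this]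
  · intro y
    rcases withOne_cases y with rfl | ⟨y, rfl⟩
    · exact ⟨1, by simp⟩
    · obtain ⟨x, hx⟩ := (h m).2 y
      refine ⟨(x : WithOne S), ?_⟩
      dsimp only at hx ⊢
      rw [← coe_ppow, hx]

/-- If two powers of `x` agree, some power of `x` is idempotent. -/
theorem exists_idem {x : S} {p q : ℕ} (hpq : p < q) (h : ppow x p = ppow x q) :
    ∃ n, ppow x n * ppow x n = ppow x n := by
  have h0 : (x : WithOne S) ^ (p + 1) = (x : WithOne S) ^ (q + 1) := by
    rw [← coe_ppow, ← coe_ppow, h]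
  set d := q - p with hd
  have hdpos : 0 < d := by omega
  have h1 : ∀ k, (x : WithOne S) ^ (p + 1 + k * d) = (x : WithOne S) ^ (p + 1) := by
    intro k
    induction k with
    | zero => simp
    | succ k ih =>
      have e : p + 1 + (k + 1) * d = (p + 1 + k * d) + d := by ring
      have e2 : p + 1 + d = q + 1 := by omega
      rw [e, pow_add, ih, ← pow_add, e2, h0]
  set N := (p + 1) * d with hN
  have hNp : p + 1 ≤ N := Nat.le_mul_of_pos_right _ hdpos
  refine ⟨N - 1, ?_⟩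
  have hN1 : N - 1 + 1 = N := by omega
  apply WithOne.coe_injective
  rw [WithOne.coe_mul, coe_ppow, hN1]
  obtain ⟨r, hr⟩ : ∃ r, N = p + 1 + r := ⟨N - (p + 1), by omega⟩
  calc (x : WithOne S) ^ N * (x : WithOne S) ^ N
      = (x : WithOne S) ^ (p + 1 + (p + 1) * d) * (x : WithOne S) ^ r := by
        rw [← pow_add, ← pow_add, ← hN]; congr 1; omega
    _ = (x : WithOne S) ^ N := by rw [h1, ← pow_add, ← hr]

end

end H91R2.EndRat
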