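import Pool.Agent.H91R2.EndRat.Hom
import Pool.Agent.H91R2.EndRat.Comb

/-!
# Rigidity of the cones
-/

open Polynomial

namespace H91R2.EndRat

universe u

section

variable {A : Type u} {R R' : ℕ → A → A → Prop}

open Classical in
theorem srcF_eq (k : ℕ) (c : A) (x : Amb A) :
    srcF k c x = ∑ i ∈ x.support, (match i with
      | Sum.inl _ => (0 : ℚ)
      | Sum.inr (l, a, b) => if l = k ∧ a = c then (x (Sum.inr (l, a, b))).coeff 3 else 0) := by
  simp only [srcF, Finsupp.lsum_apply, Finsupp.sum]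
  refine Finset.sum_congr rfl fun i _ => ?_
  rcases i with a | ⟨l, a, b⟩
  · simp
  · by_cases h : l = k ∧ a = c
    · simp [h]
    · simp [h]

open Classical in
theorem tgtF_eq (k : ℕ) (c : A) (x : Amb A) :
    tgtF k c x = ∑ i ∈ x.support, (match i with
      | Sum.inl _ => (0 : ℚ)
      | Sum.inr (l, a, b) => if l = k ∧ b = c then (x (Sum.inr (l, a, b))).coeff 5 else 0) := by
  simp only [tgtF, Finsupp.lsum_apply, Finsupp.sum]
  refine Finset.sum_congr rfl fun i _ => ?_
  rcases i with a | ⟨l, a, b⟩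
  · simp
  · by_cases h : l = k ∧ b = c
    · simp [h]
    · simp [h]

theorem srcF_ge {x : Amb A} (hx : ∀ e, 0 ≤ (x (Sum.inr e)).coeff 3) (k : ℕ) (c b : A) :
    (x (Sum.inr (k, c, b))).coeff 3 ≤ srcF k c x := by
  classical
  rw [srcF_eq]
  by_cases h : Sum.inr (k, c, b) ∈ x.support
  · refine le_trans (le_of_eq ?_) (Finset.single_le_sum (f := fun i => (match i with
      | Sum.inl _ => (0 : ℚ)
      | Sum.inr (l, a, b) => if l = k ∧ a = c then (x (Sum.inr (l, a, b))).coeff 3 else 0))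
      (fun i _ => ?_) h)
    · simp
    · rcases i with a | ⟨l, a, b⟩
      · simp
      · dsimp only
        split_ifs
        · exact hx _
        · exact le_rfl
  · rw [Finsupp.notMem_support_iff.mp h, coeff_zero]
    apply Finset.sum_nonneg
    intro i _
    rcases i with a | ⟨l, a, b⟩
    · simp
    · dsimp only
      split_ifs
      · exact hx _
      · exact le_rfl

theorem tgtF_ge {x : Amb A} (hx : ∀ e, 0 ≤ (x (Sum.inr e)).coeff 5) (k : ℕ) (c b : A) :
    (x (Sum.inr (k, b, c))).coeff 5 ≤ tgtF k c x := by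
  classical
  rw [tgtF_eq]
  by_cases h : Sum.inr (k, b, c) ∈ x.support
  · refine le_trans (le_of_eq ?_) (Finset.single_le_sum (f := fun i => (match i with
      | Sum.inl _ => (0 : ℚ)
      | Sum.inr (l, a, b) => if l = k ∧ b = c then (x (Sum.inr (l, a, b))).coeff 5 else 0))
      (fun i _ => ?_) h)
    · simp
    · rcases i with a | ⟨l, a, b⟩
      · simp
      · dsimp only
        split_ifs
        · exact hx _
        · exact le_rfl
  · rw [Finsupp.notMem_support_iff.mp h, coeff_zero]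
    apply Finset.sum_nonneg
    intro i _
    rcases i with a | ⟨l, a, b⟩
    · simp
    · dsimp only
      split_ifs
      · exact hx _
      · exact le_rfl

theorem srcF_exists {x : Amb A} {k : ℕ} {c : A} (h : srcF k c x ≠ 0) :
    ∃ b, (x (Sum.inr (k, c, b))).coeff 3 ≠ 0 := by
  classical
  rw [srcF_eq] at h
  obtain ⟨i, _, hi⟩ := Finset.exists_ne_zero_of_sum_ne_zero h
  rcases i with a | ⟨l, a, b⟩
  · simp at hi
  · dsimp only at hi
    split_ifs at hi with h2
    · obtain ⟨rfl, rfl⟩ := h2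
      exact ⟨b, hi⟩
    · exact absurd rfl hi

theorem tgtF_exists {x : Amb A} {k : ℕ} {c : A} (h : tgtF k c x ≠ 0) :
    ∃ b, (x (Sum.inr (k, b, c))).coeff 5 ≠ 0 := by
  classical
  rw [tgtF_eq] at h
  obtain ⟨i, _, hi⟩ := Finset.exists_ne_zero_of_sum_ne_zero h
  rcases i with a | ⟨l, a, b⟩
  · simp at hi
  · dsimp only at hi
    split_ifs at hi with h2
    · obtain ⟨rfl, rfl⟩ := h2
      exact ⟨a, hi⟩
    · exact absurd rfl hi

theorem srcF_single' {x : Amb A} {k : ℕ} {c b : A}
    (h : ∀ b', (x (Sum.inr (k, c, b'))).coeff 3 ≠ 0 → b' = b) :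
    srcF k c x = (x (Sum.inr (k, c, b))).coeff 3 := by
  classical
  rw [srcF_eq]
  by_cases hm : Sum.inr (k, c, b) ∈ x.support
  · rw [Finset.sum_eq_single_of_mem _ hm]
    · simp
    · intro i _ hne
      rcases i with a | ⟨l, a, b'⟩
      · rfl
      · dsimp only
        split_ifs with h2
        · obtain ⟨rfl, rfl⟩ := h2
          by_contra h3
          exact hne (by rw [h b' h3])
        · rfl
  · rw [Finsupp.notMem_support_iff.mp hm, coeff_zero]
    apply Finset.sum_eq_zero
    intro i _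
    rcases i with a | ⟨l, a, b'⟩
    · rfl
    · dsimp only
      split_ifs with h2
      · obtain ⟨rfl, rfl⟩ := h2
        by_contra h3
        have h4 := h b' h3
        subst h4
        exact h3 (by rw [Finsupp.notMem_support_iff.mp hm, coeff_zero])
      · rfl

theorem tgtF_single' {x : Amb A} {k : ℕ} {c b : A}
    (h : ∀ b', (x (Sum.inr (k, b', c))).coeff 5 ≠ 0 → b' = b) :
    tgtF k c x = (x (Sum.inr (k, b, c))).coeff 5 := by
  classical
  rw [tgtF_eq]
  by_cases hm : Sum.inr (k, b, c) ∈ x.support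
  · rw [Finset.sum_eq_single_of_mem _ hm]
    · simp
    · intro i _ hne
      rcases i with a | ⟨l, a, b'⟩
      · rfl
      · dsimp only
        split_ifs with h2
        · obtain ⟨rfl, rfl⟩ := h2
          by_contra h3
          exact hne (by rw [h a h3])
        · rfl
  · rw [Finsupp.notMem_support_iff.mp hm, coeff_zero]
    apply Finset.sum_eq_zero
    intro i _
    rcases i with a | ⟨l, a, b'⟩
    · rfl
    · dsimp only
      split_ifs with h2
      · obtain ⟨rfl, rfl⟩ := h2
        by_contra h3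
        have h4 := h a h3
        subst h4
        exact h3 (by rw [Finsupp.notMem_support_iff.mp hm, coeff_zero])
      · rfl

/-- the first linking element -/
noncomputable def w1 {k : ℕ} {a b : A} (h : R k a b) : Cn R := ⟨_, w1_mem h⟩

/-- the second linking element -/
noncomputable def w2 {k : ℕ} {a b : A} (h : R k a b) : Cn R := ⟨_, w2_mem h⟩

theorem phi_w1 (φ : Cn R →+ Cn R') {k : ℕ} {a b : A} (h : R k a b) (j : Idx A) :
    (φ (w1 h) : Amb A) j = mat φ j (Sum.inl a) • X ^ (4 * k + 7) +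
      mat φ j (Sum.inr (k, a, b)) • X ^ 3 :=
  hom_two φ (by simp) (pow_ne_zero _ X_ne_zero) (pow_ne_zero _ X_ne_zero) (w1_mem h) j

theorem phi_w2 (φ : Cn R →+ Cn R') {k : ℕ} {a b : A} (h : R k a b) (j : Idx A) :
    (φ (w2 h) : Amb A) j = mat φ j (Sum.inl b) • X ^ (4 * k + 9) +
      mat φ j (Sum.inr (k, a, b)) • X ^ 5 :=
  hom_two φ (by simp) (pow_ne_zero _ X_ne_zero) (pow_ne_zero _ X_ne_zero) (w2_mem h) j

theorem coeff_w1 (φ : Cn R →+ Cn R') {k : ℕ} {a b : A} (h : R k a b) (j : Idx A) (n : ℕ) :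
    ((φ (w1 h) : Amb A) j).coeff n = (if n = 4 * k + 7 then mat φ j (Sum.inl a) else 0) +
      (if n = 3 then mat φ j (Sum.inr (k, a, b)) else 0) := by
  rw [phi_w1, coeff_add, coeff_smul, coeff_smul, coeff_X_pow, coeff_X_pow]
  simp

theorem coeff_w2 (φ : Cn R →+ Cn R') {k : ℕ} {a b : A} (h : R k a b) (j : Idx A) (n : ℕ) :
    ((φ (w2 h) : Amb A) j).coeff n = (if n = 4 * k + 9 then mat φ j (Sum.inl b) else 0) +
      (if n = 5 then mat φ j (Sum.inr (k, a, b)) else 0) := by
  rw [phi_w2, coeff_add, coeff_smul, coeff_smul, coeff_X_pow, coeff_X_pow]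
  simp

theorem mat_inl_inr (φ : Cn R →+ Cn R') {k : ℕ} {a b : A} (h : R k a b) (c : A) :
    mat φ (Sum.inl c) (Sum.inr (k, a, b)) = 0 := by
  have h1 := (φ (w1 h)).2.1.1 c 3 (by unfold VE; omega)
  rw [coeff_w1] at h1
  rw [if_neg (by omega)] at h1
  simpa using h1

theorem mat_inr_inl_left (φ : Cn R →+ Cn R') {k : ℕ} {a b : A} (h : R k a b) (e : ℕ × A × A) :
    mat φ (Sum.inr e) (Sum.inl a) = 0 := by
  have h1 := (φ (w1 h)).2.1.2.1 e (4 * k + 7) (by unfold EE; omega)
  rw [coeff_w1, if_pos rfl, if_neg (by omega)] at h1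
  simpa using h1

theorem coeff3_w1 (φ : Cn R →+ Cn R') {k : ℕ} {a b : A} (h : R k a b) (e : ℕ × A × A) :
    ((φ (w1 h) : Amb A) (Sum.inr e)).coeff 3 = mat φ (Sum.inr e) (Sum.inr (k, a, b)) := by
  rw [coeff_w1, if_neg (by omega)]; simp

theorem coeff5_w2 (φ : Cn R →+ Cn R') {k : ℕ} {a b : A} (h : R k a b) (e : ℕ × A × A) :
    ((φ (w2 h) : Amb A) (Sum.inr e)).coeff 5 = mat φ (Sum.inr e) (Sum.inr (k, a, b)) := by
  rw [coeff_w2, if_neg (by omega)]; simp

theorem src_eq (φ : Cn R →+ Cn R') {k : ℕ} {a b : A} (h : R k a b) (l : ℕ) (c : A) :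
    srcF l c (φ (w1 h) : Amb A) = if l = k then mat φ (Sum.inl c) (Sum.inl a) else 0 := by
  have h1 := (φ (w1 h)).2.1.2.2.2.1 l c
  rw [coeff_w1] at h1
  rw [← h1, if_neg (show ¬ (4 * l + 7 = 3) by omega), add_zero]
  by_cases hl : l = k
  · simp [hl]
  · rw [if_neg (by omega), if_neg hl]

theorem tgt_eq (φ : Cn R →+ Cn R') {k : ℕ} {a b : A} (h : R k a b) (l : ℕ) (c : A) :
    tgtF l c (φ (w2 h) : Amb A) = if l = k then mat φ (Sum.inl c) (Sum.inl b) else 0 := by
  have h1 := (φ (w2 h)).2.1.2.2.2.2 l c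
  rw [coeff_w2] at h1
  rw [← h1, if_neg (show ¬ (4 * l + 9 = 5) by omega), add_zero]
  by_cases hl : l = k
  · simp [hl]
  · rw [if_neg (by omega), if_neg hl]

theorem E1 (φ : Cn R →+ Cn R') {k : ℕ} {a b : A} (h : R k a b) {l : ℕ} {a' b' : A}
    (hne : mat φ (Sum.inr (l, a', b')) (Sum.inr (k, a, b)) ≠ 0) :
    l = k ∧ R' l a' b' ∧ mat φ (Sum.inl a') (Sum.inl a) ≠ 0 ∧
      mat φ (Sum.inl b') (Sum.inl b) ≠ 0 := by
  have hpos : 0 < mat φ (Sum.inr (l, a', b')) (Sum.inr (k, a, b)) :=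
    lt_of_le_of_ne (mat_nonneg φ _ _) (Ne.symm hne)
  have h1 : mat φ (Sum.inr (l, a', b')) (Sum.inr (k, a, b)) ≤ srcF l a' (φ (w1 h) : Amb A) := by
    rw [← coeff3_w1 φ h]
    exact srcF_ge (fun e => by rw [coeff3_w1]; exact mat_nonneg φ _ _) l a' b'
  have h2 : mat φ (Sum.inr (l, a', b')) (Sum.inr (k, a, b)) ≤ tgtF l b' (φ (w2 h) : Amb A) := by
    rw [← coeff5_w2 φ h]
    exact tgtF_ge (fun e => by rw [coeff5_w2]; exact mat_nonneg φ _ _) l b' a'
  rw [src_eq] at h1
  rw [tgt_eq] at h2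
  have hl : l = k := by
    by_contra hl
    rw [if_neg hl] at h1
    exact absurd hpos (not_lt.mpr h1)
  rw [if_pos hl] at h1 h2
  refine ⟨hl, ?_, (hpos.trans_le h1).ne', (hpos.trans_le h2).ne'⟩
  by_contra hR
  have h3 := (φ (w1 h)).2.1.2.2.1 l a' b' hR
  have h4 := coeff3_w1 φ h (l, a', b')
  rw [h3, coeff_zero] at h4
  exact hne h4.symm

theorem E2 (φ : Cn R →+ Cn R') {k : ℕ} {a b : A} (h : R k a b) {c : A}
    (hne : mat φ (Sum.inl c) (Sum.inl a) ≠ 0) :
    ∃ b', mat φ (Sum.inr (k, c, b')) (Sum.inr (k, a, b)) ≠ 0 := by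
  have h1 := src_eq φ h k c
  rw [if_pos rfl] at h1
  rw [← h1] at hne
  obtain ⟨b', hb'⟩ := srcF_exists hne
  rw [coeff3_w1] at hb'
  exact ⟨b', hb'⟩

theorem E3 (φ : Cn R →+ Cn R') {k : ℕ} {a b : A} (h : R k a b) {c : A}
    (hne : mat φ (Sum.inl c) (Sum.inl b) ≠ 0) :
    ∃ a', mat φ (Sum.inr (k, a', c)) (Sum.inr (k, a, b)) ≠ 0 := by
  have h1 := tgt_eq φ h k c
  rw [if_pos rfl] at h1
  rw [← h1] at hne
  obtain ⟨b', hb'⟩ := tgtF_exists hne
  rw [coeff5_w2] at hb'
  exact ⟨b', hb'⟩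

end

section

variable {A : Type u} [LinearOrder A] [WellFoundedLT A] [Infinite A]

/-- Every homomorphism between two of the cones is multiplication by a rational number. -/
theorem rigid (X X' : Set A) (φ : Cn (Rel X) →+ Cn (Rel X')) :
    ∃ c : ℚ, 0 ≤ c ∧ (∀ x, (φ x : Amb A) = c • (x : Amb A)) ∧ (c ≠ 0 → X ⊆ X') := by
  classical
  set D : A → Finset A := fun a =>
    ((φ (el (Rel X) (Sum.inl a)) : Amb A).support).preimage Sum.inl
      Sum.inl_injective.injOn with hDdef
  have hD : ∀ a c, c ∈ D a ↔ mat φ (Sum.inl c) (Sum.inl a) ≠ 0 := by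
    intro a c
    rw [hDdef, Finset.mem_preimage, Finsupp.mem_support_iff, phi_el_eq]
    simp
  have hSet : SetHom X X' D := by
    constructor
    · intro k a b hR x hx
      rw [hD] at hx
      obtain ⟨b', hb'⟩ := E2 φ hR hx
      obtain ⟨_, h2, _, h4⟩ := E1 φ hR hb'
      exact ⟨b', (hD _ _).mpr h4, h2⟩
    · intro k a b hR x hx
      rw [hD] at hx
      obtain ⟨b', hb'⟩ := E3 φ hR hx
      obtain ⟨_, h2, h3, _⟩ := E1 φ hR hb'
      exact ⟨b', (hD _ _).mpr h3, h2⟩
  have hconn : ∀ a b, (D a).Nonempty → (D b).Nonempty := by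
    intro a b ⟨x, hx⟩
    rcases lt_trichotomy a b with h | h | h
    · obtain ⟨y, hy, _⟩ := hSet.left 0 a b h x hx
      exact ⟨y, hy⟩
    · subst h; exact ⟨x, hx⟩
    · obtain ⟨y, hy, _⟩ := hSet.right 0 b a h x hx
      exact ⟨y, hy⟩
  -- every vertex lies on an edge
  have hedge : ∀ a : A, ∃ b, a ≠ b := fun a => by
    obtain ⟨b, hb⟩ := exists_ne a
    exact ⟨b, hb.symm⟩
  have hmix : ∀ (e : ℕ × A × A) (a : A), mat φ (Sum.inr e) (Sum.inl a) = 0 := by
    intro e a
    obtain ⟨b, hb⟩ := hedge a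
    rcases lt_or_gt_of_ne hb with h | h
    · exact mat_inr_inl_left φ (show Rel X 0 a b from h) e
    · have hR : Rel X 0 b a := h
      have h1 := (φ (w2 hR)).2.1.2.1 e (4 * 0 + 9) (by unfold EE; omega)
      rw [coeff_w2, if_pos rfl, if_neg (by omega)] at h1
      simpa using h1
  by_cases hne : ∃ a, (D a).Nonempty
  · obtain ⟨a₀, ha₀⟩ := hne
    have hall : ∀ a, (D a).Nonempty := fun a => hconn a₀ a ha₀
    have hsing : ∀ a, D a = {a} := fun a => hSet.eq_singleton hall a
    have hv : ∀ a c, mat φ (Sum.inl c) (Sum.inl a) ≠ 0 ↔ c = a := by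
      intro a c
      rw [← hD, hsing, Finset.mem_singleton]
    have he : ∀ k a b, Rel X k a b → ∀ l a' b',
        mat φ (Sum.inr (l, a', b')) (Sum.inr (k, a, b)) ≠ 0 → (l, a', b') = (k, a, b) := by
      intro k a b hR l a' b' h
      obtain ⟨h1, _, h3, h4⟩ := E1 φ hR h
      rw [hv] at h3 h4
      rw [h1, h3, h4]
    have hsrc : ∀ k a b, Rel X k a b →
        mat φ (Sum.inl a) (Sum.inl a) = mat φ (Sum.inr (k, a, b)) (Sum.inr (k, a, b)) := by
      intro k a b hR
      have h1 := src_eq φ hR k a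
      rw [if_pos rfl] at h1
      rw [← h1, ← coeff3_w1 φ hR]
      apply srcF_single'
      intro b' hb'
      rw [coeff3_w1] at hb'
      have := he k a b hR _ _ _ hb'
      simp only [Prod.mk.injEq] at this
      exact this.2.2
    have htgt : ∀ k a b, Rel X k a b →
        mat φ (Sum.inl b) (Sum.inl b) = mat φ (Sum.inr (k, a, b)) (Sum.inr (k, a, b)) := by
      intro k a b hR
      have h1 := tgt_eq φ hR k b
      rw [if_pos rfl] at h1
      rw [← h1, ← coeff5_w2 φ hR]
      apply tgtF_single'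
      intro b' hb'
      rw [coeff5_w2] at hb'
      have := he k a b hR _ _ _ hb'
      simp only [Prod.mk.injEq] at this
      exact this.2.1
    have hconst : ∀ a b, mat φ (Sum.inl a) (Sum.inl a) = mat φ (Sum.inl b) (Sum.inl b) := by
      intro a b
      rcases lt_trichotomy a b with h | h | h
      · rw [hsrc 0 a b h, htgt 0 a b h]
      · rw [h]
      · rw [hsrc 0 b a h, htgt 0 b a h]
    set c := mat φ (Sum.inl a₀) (Sum.inl a₀) with hc
    have hcne : c ≠ 0 := (hv a₀ a₀).mpr rfl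
    have hdiag : ∀ i, Valid (Rel X) i → mat φ i i = c := by
      intro i hi
      rcases i with a | ⟨k, a, b⟩
      · exact hconst a a₀
      · rw [← hsrc k a b hi]; exact hconst a a₀
    have hoff : ∀ i j, Valid (Rel X) i → j ≠ i → mat φ j i = 0 := by
      intro i j hi hji
      rcases i with a | ⟨k, a, b⟩
      · rcases j with a' | e
        · by_contra h
          rw [← ne_eq, hv] at h
          exact hji (by rw [h])
        · exact hmix e a
      · rcases j with a' | ⟨l, a', b'⟩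
        · exact mat_inl_inr φ hi a'
        · by_contra h
          exact hji (by rw [he k a b hi l a' b' h])
    refine ⟨c, mat_nonneg φ _ _, fun x => ?_, fun _ => ?_⟩
    · ext1 j
      rw [hom_formula, Finsupp.smul_apply]
      by_cases hj : j ∈ (x : Amb A).support
      · rw [Finset.sum_eq_single_of_mem j hj]
        · rw [hdiag j (ne_zero_valid x.2 (Finsupp.mem_support_iff.mp hj))]
        · intro i hi hij
          rw [hoff i j (ne_zero_valid x.2 (Finsupp.mem_support_iff.mp hi)) (Ne.symm hij),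
            zero_smul]
      · rw [Finsupp.notMem_support_iff.mp hj, smul_zero]
        apply Finset.sum_eq_zero
        intro i hi
        have hij : j ≠ i := by rintro rfl; exact hj hi
        rw [hoff i j (ne_zero_valid x.2 (Finsupp.mem_support_iff.mp hi)) hij, zero_smul]
    · intro a ha
      have hR : Rel X 1 a a := ⟨rfl, ha⟩
      have h1 : mat φ (Sum.inr (1, a, a)) (Sum.inr (1, a, a)) ≠ 0 := by
        rw [← hsrc 1 a a hR]
        exact (hv a a).mpr rfl
      exact (E1 φ hR h1).2.1.2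
  · have hempty : ∀ a c, mat φ (Sum.inl c) (Sum.inl a) = 0 := by
      intro a c
      by_contra h
      exact hne ⟨a, c, (hD a c).mpr h⟩
    refine ⟨0, le_rfl, fun x => ?_, fun h => absurd rfl h⟩
    ext1 j
    rw [hom_formula, zero_smul, Finsupp.zero_apply]
    apply Finset.sum_eq_zero
    intro i hi
    have hval := ne_zero_valid x.2 (Finsupp.mem_support_iff.mp hi)
    have : mat φ j i = 0 := by
      rcases i with a | ⟨k, a, b⟩
      · rcases j with a' | e
        · exact hempty a a'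
        · exact hmix e a
      · rcases j with a' | ⟨l, a', b'⟩
        · exact mat_inl_inr φ hval a'
        · by_contra h
          exact (E1 φ hval h).2.2.1 (hempty _ _)
    rw [this, zero_smul]

end

end H91R2.EndRat
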