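import Pool.Agent.H91R2.EndRat.Rigid
import Pool.Agent.H91R2.EndRat.Defs

/-!
# The semigroups of nonzero, resp. all, elements of the cones
-/

open Polynomial

namespace H91R2.EndRat

universe u

section

variable {A : Type u}

theorem cone_add_eq_zero {R : ℕ → A → A → Prop} {x y : Cn R} (h : x + y = 0) : x = 0 := by
  apply Subtype.ext
  ext1 i
  have h1 : (x : Amb A) i + (y : Amb A) i = 0 := by
    have := congrArg (fun z : Cn R => (z : Amb A) i) h
    simpa using this
  have h2 : ev ((x : Amb A) i) + ev ((y : Amb A) i) = 0 := by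
    rw [← map_add, h1, map_zero]
  have h3 : ev ((x : Amb A) i) = 0 := le_antisymm (by linarith [y.2.2 i]) (x.2.2 i)
  have : (x : Amb A) i = 0 := ev_inj (by rw [h3, map_zero])
  simpa using this

/-- The nonzero elements of a cone, written multiplicatively. -/
def PosC (R : ℕ → A → A → Prop) : Type u := {x : Cn R // x ≠ 0}

noncomputable instance (R : ℕ → A → A → Prop) : CommSemigroup (PosC R) where
  mul x y := ⟨x.1 + y.1, fun h => x.2 (cone_add_eq_zero h)⟩
  mul_assoc x y z := Subtype.ext (add_assoc x.1 y.1 z.1)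
  mul_comm x y := Subtype.ext (add_comm x.1 y.1)

/-- constructor -/
def PosC.of {R : ℕ → A → A → Prop} (x : Cn R) (h : x ≠ 0) : PosC R := ⟨x, h⟩

theorem PosC.coe_mul {R : ℕ → A → A → Prop} (x y : PosC R) : (x * y).1 = x.1 + y.1 := rfl

/-- rational multiples -/
noncomputable def qsm {R : ℕ → A → A → Prop} (q : ℚ) (hq : 0 ≤ q) (x : Cn R) : Cn R :=
  ⟨q • (x : Amb A), smul_mem_Cn x.2 hq⟩

theorem qsm_add {R : ℕ → A → A → Prop} (q : ℚ) (hq : 0 ≤ q) (x y : Cn R) :
    qsm q hq (x + y) = qsm q hq x + qsm q hq y := Subtype.ext (smul_add q _ _)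

theorem qsm_ne_zero {R : ℕ → A → A → Prop} {q : ℚ} (hq : 0 < q) {x : Cn R} (hx : x ≠ 0) :
    qsm q hq.le x ≠ 0 := by
  intro h
  have h1 : q • (x : Amb A) = 0 := congrArg Subtype.val h
  rcases smul_eq_zero.mp h1 with h2 | h2
  · exact hq.ne' h2
  · exact hx (Subtype.ext h2)

theorem smul_inj' {R : ℕ → A → A → Prop} {q q' : ℚ} {x : Cn R} (hx : x ≠ 0)
    (h : q • (x : Amb A) = q' • (x : Amb A)) : q = q' := by
  have h1 : (q - q') • (x : Amb A) = 0 := by rw [sub_smul, h, sub_self]
  rcases smul_eq_zero.mp h1 with h2 | h2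
  · linarith
  · exact absurd (Subtype.ext h2) hx

/-- homothety of the positive cone -/
noncomputable def htyPos {R : ℕ → A → A → Prop} (q : {q : ℚ // 0 < q}) : PosC R →ₙ* PosC R where
  toFun x := ⟨qsm q.1 q.2.le x.1, qsm_ne_zero q.2 x.2⟩
  map_mul' x y := Subtype.ext (qsm_add q.1 q.2.le x.1 y.1)

theorem htyPos_apply {R : ℕ → A → A → Prop} (q : {q : ℚ // 0 < q}) (x : PosC R) :
    ((htyPos q x).1 : Amb A) = q.1 • (x.1 : Amb A) := rfl

/-- homothety of the full cone -/
noncomputable def htyNonneg {R : ℕ → A → A → Prop} (q : ℚ≥0) :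
    Multiplicative (Cn R) →ₙ* Multiplicative (Cn R) where
  toFun x := Multiplicative.ofAdd (qsm (q : ℚ) q.coe_nonneg x.toAdd)
  map_mul' x y := congrArg Multiplicative.ofAdd (qsm_add (q : ℚ) q.coe_nonneg x.toAdd y.toAdd)

theorem htyNonneg_apply {R : ℕ → A → A → Prop} (q : ℚ≥0)
    (x : Multiplicative (Cn R)) :
    ((htyNonneg q x).toAdd : Amb A) = (q : ℚ) • (x.toAdd : Amb A) := rfl

open Classical in
/-- extension of a homomorphism of positive cones by zero -/
noncomputable def extZero {R R' : ℕ → A → A → Prop} (φ : PosC R →ₙ* PosC R') : Cn R →+ Cn R' where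
  toFun x := if h : x = 0 then 0 else (φ (PosC.of x h)).1
  map_zero' := by simp
  map_add' x y := by
    by_cases hx : x = 0
    · subst hx; simp
    · by_cases hy : y = 0
      · subst hy; simp
      · have hxy : x + y ≠ 0 := fun h => hx (cone_add_eq_zero h)
        rw [dif_neg hx, dif_neg hy, dif_neg hxy]
        have h1 : PosC.of (x + y) hxy = PosC.of x hx * PosC.of y hy := rfl
        rw [h1, map_mul, PosC.coe_mul]

theorem extZero_apply {R R' : ℕ → A → A → Prop} (φ : PosC R →ₙ* PosC R') (x : PosC R) :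
    extZero φ x.1 = (φ x).1 := by
  simp only [extZero, AddMonoidHom.coe_mk, ZeroHom.coe_mk]
  rw [dif_neg x.2]
  rfl

theorem el_ne_zero {R : ℕ → A → A → Prop} (a : A) : el R (Sum.inl a) ≠ 0 := by
  intro h
  have h1 : (el R (Sum.inl a) : Amb A) = 0 := congrArg Subtype.val h
  rw [el_coe (show Valid R (Sum.inl a) from trivial)] at h1
  have := Finsupp.single_eq_zero.mp h1
  exact one_ne_zero this

end

section

variable {A : Type u} [LinearOrder A] [WellFoundedLT A] [Infinite A]

theorem posC_hom (X X' : Set A) (φ : PosC (Rel X) →ₙ* PosC (Rel X')) :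
    ∃ c : ℚ, 0 < c ∧ (∀ x, ((φ x).1 : Amb A) = c • (x.1 : Amb A)) ∧ X ⊆ X' := by
  obtain ⟨c, hc0, hc, hX⟩ := rigid X X' (extZero φ)
  have hcne : c ≠ 0 := by
    rintro rfl
    obtain ⟨a⟩ : Nonempty A := inferInstance
    have h1 := hc (el (Rel X) (Sum.inl a))
    have h2 := extZero_apply φ (PosC.of (el (Rel X) (Sum.inl a)) (el_ne_zero a))
    have h3 : (PosC.of (el (Rel X) (Sum.inl a)) (el_ne_zero a)).1 = el (Rel X) (Sum.inl a) := rfl
    rw [h3] at h2
    rw [h2, zero_smul] at h1
    exact (φ (PosC.of (el (Rel X) (Sum.inl a)) (el_ne_zero a))).2 (Subtype.ext h1)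
  refine ⟨c, lt_of_le_of_ne hc0 (Ne.symm hcne), fun x => ?_, hX hcne⟩
  rw [← extZero_apply, hc]

theorem solPos_posC (X : Set A) : SolPos (PosC (Rel X)) := by
  have hbij : Function.Bijective (fun q : Multiplicative {q : ℚ // 0 < q} =>
      (htyPos q.toAdd : PosC (Rel X) →ₙ* PosC (Rel X))) := by
    constructor
    · intro q q' h
      obtain ⟨a⟩ : Nonempty A := inferInstance
      have h1 := DFunLike.congr_fun h (PosC.of (el (Rel X) (Sum.inl a)) (el_ne_zero a))
      have h2 := congrArg (fun z : PosC (Rel X) => (z.1 : Amb A)) h1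
      dsimp only at h2
      rw [htyPos_apply, htyPos_apply] at h2
      have h3 : q.toAdd.1 = q'.toAdd.1 := smul_inj' (el_ne_zero a) h2
      exact Multiplicative.toAdd.injective (Subtype.ext h3)
    · intro φ
      obtain ⟨c, hc, h, _⟩ := posC_hom X X φ
      refine ⟨Multiplicative.ofAdd ⟨c, hc⟩, ?_⟩
      apply DFunLike.ext
      intro x
      apply Subtype.ext
      apply Subtype.ext
      dsimp only
      rw [htyPos_apply, h x]
      rfl
  refine ⟨(MulEquiv.ofBijective (⟨fun q : Multiplicative {q : ℚ // 0 < q} =>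
      (htyPos q.toAdd : PosC (Rel X) →ₙ* PosC (Rel X)), ?_⟩ :
        Multiplicative {q : ℚ // 0 < q} →ₙ* (PosC (Rel X) →ₙ* PosC (Rel X))) hbij).symm⟩
  intro q q'
  apply DFunLike.ext
  intro x
  apply Subtype.ext
  apply Subtype.ext
  rw [MulHom.mul_apply, PosC.coe_mul, AddSubmonoid.coe_add, htyPos_apply, htyPos_apply,
    htyPos_apply]
  exact add_smul q.toAdd.1 q'.toAdd.1 (x.1 : Amb A)

theorem posC_iso (X X' : Set A) (h : Nonempty (PosC (Rel X) ≃* PosC (Rel X'))) : X = X' := by
  obtain ⟨e⟩ := h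
  obtain ⟨_, _, _, h1⟩ := posC_hom X X' (e : PosC (Rel X) →ₙ* PosC (Rel X'))
  obtain ⟨_, _, _, h2⟩ := posC_hom X' X (e.symm : PosC (Rel X') →ₙ* PosC (Rel X))
  exact h1.antisymm h2

/-- a multiplicative map between the full cones is additive and preserves zero -/
noncomputable def toAddHom {R R' : ℕ → A → A → Prop}
    (φ : Multiplicative (Cn R) →ₙ* Multiplicative (Cn R')) : Cn R →+ Cn R' where
  toFun x := (φ (Multiplicative.ofAdd x)).toAdd
  map_zero' := by
    have h : φ (Multiplicative.ofAdd 0) * φ (Multiplicative.ofAdd 0) =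
        φ (Multiplicative.ofAdd 0) := by
      rw [← map_mul]
      congr 1
      rw [← ofAdd_add, add_zero]
    have h1 : (φ (Multiplicative.ofAdd 0)).toAdd + (φ (Multiplicative.ofAdd 0)).toAdd =
        (φ (Multiplicative.ofAdd 0)).toAdd := congrArg Multiplicative.toAdd h
    have h2 : ((φ (Multiplicative.ofAdd 0)).toAdd : Amb A) +
        ((φ (Multiplicative.ofAdd 0)).toAdd : Amb A) =
        ((φ (Multiplicative.ofAdd 0)).toAdd : Amb A) := congrArg Subtype.val h1
    exact Subtype.ext (by simpa using h2)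
  map_add' x y := by
    rw [← toAdd_mul, ← map_mul]; rfl

theorem nonnegC_hom (X X' : Set A) (φ : Multiplicative (Cn (Rel X)) →ₙ*
    Multiplicative (Cn (Rel X'))) :
    ∃ c : ℚ, 0 ≤ c ∧ (∀ x, ((φ x).toAdd : Amb A) = c • (x.toAdd : Amb A)) ∧
      (c ≠ 0 → X ⊆ X') := by
  obtain ⟨c, hc0, hc, hX⟩ := rigid X X' (toAddHom φ)
  exact ⟨c, hc0, fun x => hc x.toAdd, hX⟩

theorem solNonneg_nonnegC (X : Set A) : SolNonneg (Multiplicative (Cn (Rel X))) := by
  have hbij : Function.Bijective (fun q : Multiplicative ℚ≥0 =>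
      (htyNonneg q.toAdd : Multiplicative (Cn (Rel X)) →ₙ* Multiplicative (Cn (Rel X)))) := by
    constructor
    · intro q q' h
      obtain ⟨a⟩ : Nonempty A := inferInstance
      have h1 := DFunLike.congr_fun h (Multiplicative.ofAdd (el (Rel X) (Sum.inl a)))
      have h2 := congrArg (fun z : Multiplicative (Cn (Rel X)) => (z.toAdd : Amb A)) h1
      dsimp only at h2
      rw [htyNonneg_apply, htyNonneg_apply] at h2
      have h3 : (q.toAdd : ℚ) = (q'.toAdd : ℚ) := smul_inj' (el_ne_zero a) h2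
      exact Multiplicative.toAdd.injective (NNRat.coe_inj.mp h3)
    · intro φ
      obtain ⟨c, hc, h, _⟩ := nonnegC_hom X X φ
      refine ⟨Multiplicative.ofAdd ⟨c, hc⟩, ?_⟩
      apply DFunLike.ext
      intro x
      apply Multiplicative.toAdd.injective
      apply Subtype.ext
      dsimp only
      rw [htyNonneg_apply, h x]
      rfl
  refine ⟨(MulEquiv.ofBijective (⟨fun q : Multiplicative ℚ≥0 =>
      (htyNonneg q.toAdd : Multiplicative (Cn (Rel X)) →ₙ* Multiplicative (Cn (Rel X))), ?_⟩ :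
        Multiplicative ℚ≥0 →ₙ*
          (Multiplicative (Cn (Rel X)) →ₙ* Multiplicative (Cn (Rel X)))) hbij).symm⟩
  intro q q'
  apply DFunLike.ext
  intro x
  apply Multiplicative.toAdd.injective
  apply Subtype.ext
  rw [MulHom.mul_apply, htyNonneg_apply]
  exact add_smul (q.toAdd : ℚ) (q'.toAdd : ℚ) (x.toAdd : Amb A)

theorem nonnegC_iso (X X' : Set A)
    (h : Nonempty (Multiplicative (Cn (Rel X)) ≃* Multiplicative (Cn (Rel X')))) : X = X' := by
  obtain ⟨e⟩ := h
  have key : ∀ (Y Y' : Set A) (e : Multiplicative (Cn (Rel Y)) ≃* Multiplicative (Cn (Rel Y'))),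
      Y ⊆ Y' := by
    intro Y Y' e
    obtain ⟨c, _, hc, h1⟩ := nonnegC_hom Y Y'
      (e : Multiplicative (Cn (Rel Y)) →ₙ* Multiplicative (Cn (Rel Y')))
    apply h1
    rintro rfl
    obtain ⟨a⟩ : Nonempty A := inferInstance
    have h2 := hc (Multiplicative.ofAdd (el (Rel Y) (Sum.inl a)))
    have h3 := hc (Multiplicative.ofAdd 0)
    rw [zero_smul] at h2 h3
    have h4 : e (Multiplicative.ofAdd (el (Rel Y) (Sum.inl a))) = e (Multiplicative.ofAdd 0) := by
      apply Multiplicative.toAdd.injective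
      apply Subtype.ext
      exact h2.trans h3.symm
    have h5 := e.injective h4
    exact el_ne_zero a (Multiplicative.ofAdd.injective h5)
  exact (key X X' e).antisymm (key X' X e.symm)

end

end H91R2.EndRat
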