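import Pool.Agent.H91R2.EndRat.Char

/-!
# The only solution with a nonzero homomorphism to the nonnegative rationals
-/

namespace H91R2.EndRat

universe u

section

variable {S : Type u} [CommSemigroup S]

/-- `f` extended to `WithOne S`. -/
noncomputable def liftF (f : S →ₙ* Multiplicative ℚ≥0) : WithOne S →* Multiplicative ℚ≥0 :=
  WithOne.lift f

theorem liftF_coe (f : S →ₙ* Multiplicative ℚ≥0) (x : S) :
    (liftF f (x : WithOne S)).toAdd = (f x).toAdd := by
  unfold liftF
  rw [WithOne.lift_coe]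

theorem liftF_rp (hS : UniqDiv S) (f : S →ₙ* Multiplicative ℚ≥0) (w : WithOne S) (q : ℚ≥0) :
    (liftF f (rp w q)).toAdd = q * (liftF f w).toAdd := by
  have hM := UD_withOne hS
  have h0 : (liftF f (rp w q)) ^ q.den = (liftF f w) ^ q.num := by
    rw [← map_pow, ← map_pow, rp_spec hM w q]
  have h1 := congrArg Multiplicative.toAdd h0
  rw [toAdd_pow, toAdd_pow, nsmul_eq_mul, nsmul_eq_mul] at h1
  have hd : (q.den : ℚ≥0) ≠ 0 := by exact_mod_cast q.den_pos.ne'
  have h2 : (q.num : ℚ≥0) / q.den = q := NNRat.num_div_den q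
  have h3 : (q.den : ℚ≥0) * (liftF f (rp w q)).toAdd = q.den * (q * (liftF f w).toAdd) := by
    rw [h1]
    have h4 : (q.num : ℚ≥0) = q.den * q := by
      rw [div_eq_iff hd] at h2
      rw [h2, mul_comm]
    rw [h4, mul_assoc]
  exact mul_left_cancel₀ hd h3

/-- The twisted endomorphism `x ↦ x * t ^ f(x)`. -/
noncomputable def twist (hS : UniqDiv S) (f : S →ₙ* Multiplicative ℚ≥0) (t : S) : S →ₙ* S where
  toFun x := (exists_coe_mul x (rp (t : WithOne S) (f x).toAdd)).choose
  map_mul' x y := by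
    apply WithOne.coe_injective
    refine (exists_coe_mul (x * y) (rp (t : WithOne S) (f (x * y)).toAdd)).choose_spec.trans ?_
    rw [WithOne.coe_mul, map_mul, toAdd_mul, rp_add (UD_withOne hS), WithOne.coe_mul,
      (exists_coe_mul x (rp (t : WithOne S) (f x).toAdd)).choose_spec,
      (exists_coe_mul y (rp (t : WithOne S) (f y).toAdd)).choose_spec]
    rw [mul_mul_mul_comm]

theorem coe_twist (hS : UniqDiv S) (f : S →ₙ* Multiplicative ℚ≥0) (t x : S) :
    ((twist hS f t x : S) : WithOne S) = (x : WithOne S) * rp (t : WithOne S) (f x).toAdd :=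
  (exists_coe_mul x (rp (t : WithOne S) (f x).toAdd)).choose_spec

/-- If the twisted endomorphism is a rational power, the exponent is `1 + f(s)`. -/
theorem twist_eq (hS : UniqDiv S) (f : S →ₙ* Multiplicative ℚ≥0) (s : S)
    (hs : (f s).toAdd ≠ 0) (hp : IsRatPow (twist hS f s)) (x : S) :
    (x : WithOne S) * rp (s : WithOne S) (f x).toAdd =
      rp (x : WithOne S) (1 + (f s).toAdd) := by
  obtain ⟨r, hr0, hr⟩ := (isRatPow_iff hS _).mp hp
  have h1 := hr s
  rw [coe_twist] at h1
  have h2 := congrArg (fun z => (liftF f z).toAdd) h1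
  rw [map_mul, toAdd_mul, liftF_rp hS, liftF_rp hS, liftF_coe] at h2
  have h3 : (1 + (f s).toAdd) * (f s).toAdd = r * (f s).toAdd := by
    rw [add_mul, one_mul]; exact h2
  have h4 : 1 + (f s).toAdd = r := mul_right_cancel₀ hs h3
  rw [h4, ← hr x, coe_twist]

theorem rp_coprop (hS : UniqDiv S) (f : S →ₙ* Multiplicative ℚ≥0) {x s : S}
    (hx : (f x).toAdd ≠ 0) (hs : (f s).toAdd ≠ 0)
    (hpx : IsRatPow (twist hS f x)) (hps : IsRatPow (twist hS f s)) :
    rp (s : WithOne S) (f x).toAdd = rp (x : WithOne S) (f s).toAdd := by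
  have hM := UD_withOne hS
  set a := (f s).toAdd with ha
  set b := (f x).toAdd with hb
  have h1 : (x : WithOne S) * rp (s : WithOne S) b = rp (x : WithOne S) (1 + a) :=
    twist_eq hS f s hs hps x
  have h2 : (s : WithOne S) * rp (x : WithOne S) a = rp (s : WithOne S) (1 + b) :=
    twist_eq hS f x hx hpx s
  apply key_eq hM (a := a) (b := b) hs hx
  · have h3 : rp ((x : WithOne S) * rp (s : WithOne S) b) a =
        rp (rp (x : WithOne S) (1 + a)) a := by rw [h1]
    rw [rp_mul hM, rp_rp hM (x : WithOne S)] at h3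
    rw [h3, rp_rp hM, mul_comm a]
  · have h3 : rp ((s : WithOne S) * rp (x : WithOne S) a) b =
        rp (rp (s : WithOne S) (1 + b)) b := by rw [h2]
    rw [rp_mul hM, rp_rp hM (s : WithOne S)] at h3
    rw [h3, rp_rp hM, mul_comm b]

theorem f_inj (hS : UniqDiv S) (f : S →ₙ* Multiplicative ℚ≥0) {x s : S}
    (hx : (f x).toAdd ≠ 0) (hpx : IsRatPow (twist hS f x)) (hps : IsRatPow (twist hS f s))
    (h : f x = f s) : x = s := by
  have hM := UD_withOne hS
  have h1 := rp_coprop hS f hx (h ▸ hx) hpx hps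
  rw [← h] at h1
  have h2 : rp (rp (s : WithOne S) (f x).toAdd) ((f x).toAdd)⁻¹ =
      rp (rp (x : WithOne S) (f x).toAdd) ((f x).toAdd)⁻¹ := by rw [h1]
  rw [rp_rp hM, rp_rp hM, mul_inv_cancel₀ hx, rp_one hM, rp_one hM] at h2
  exact (WithOne.coe_inj.mp h2).symm

/-- convert a rational valued function to a homomorphism -/
theorem hasRatHom_iff : HasRatHom S ↔ ∃ f : S →ₙ* Multiplicative ℚ≥0, ∃ x, (f x).toAdd ≠ 0 := by
  constructor
  · rintro ⟨f, h0, hadd, x, hx⟩
    refine ⟨⟨fun y => Multiplicative.ofAdd (⟨f y, h0 y⟩ : ℚ≥0), ?_⟩, x, ?_⟩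
    · intro y z
      apply Multiplicative.toAdd.injective
      apply NNRat.coe_inj.mp
      exact hadd y z
    · intro h
      apply hx
      have : ((⟨f x, h0 x⟩ : ℚ≥0) : ℚ) = 0 := congrArg (fun r : ℚ≥0 => (r : ℚ)) h
      exact this
  · rintro ⟨f, x, hx⟩
    refine ⟨fun y => ((f y).toAdd : ℚ), fun y => NNRat.coe_nonneg _, fun y z => ?_, x, ?_⟩
    · dsimp only
      rw [map_mul, toAdd_mul]; exact NNRat.coe_add _ _
    · exact fun h => hx (NNRat.coe_inj.mp h)

theorem solPos_unique (h : SolPos S) :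
    HasRatHom S ↔ Nonempty (S ≃* Multiplicative {q : ℚ // 0 < q}) := by
  obtain ⟨hnt, hS, hE⟩ := solPos_forward h
  have hM := UD_withOne hS
  constructor
  · rw [hasRatHom_iff]
    rintro ⟨f, s, hs⟩
    have hpos : ∀ x, (f x).toAdd ≠ 0 := by
      intro x hx
      have h1 := twist_eq hS f s hs (hE _) x
      rw [hx, rp_zero hM, mul_one] at h1
      have h2 : rp (x : WithOne S) 1 = rp (x : WithOne S) (1 + (f s).toAdd) := by
        rw [rp_one hM]; exact h1
      have h3 := rp_exp_inj hS (fun n => no_idem hnt hS hE _) h2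
      exact hs (by
        have h4 : (1 : ℚ≥0) + 0 = 1 + (f s).toAdd := by rw [add_zero]; exact h3
        exact (add_left_cancel h4).symm)
    have hposQ : ∀ x, (0 : ℚ) < ((f x).toAdd : ℚ≥0) := by
      intro x
      refine lt_of_le_of_ne (NNRat.coe_nonneg _) (fun h0 => hpos x ?_)
      exact NNRat.coe_inj.mp h0.symm
    let g : S →ₙ* Multiplicative {q : ℚ // 0 < q} :=
      { toFun := fun x => Multiplicative.ofAdd ⟨((f x).toAdd : ℚ), hposQ x⟩
        map_mul' := by
          intro x y
          apply Multiplicative.toAdd.injective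
          apply Subtype.ext
          show (((f (x * y)).toAdd : ℚ≥0) : ℚ) = ((f x).toAdd : ℚ) + ((f y).toAdd : ℚ)
          rw [map_mul, toAdd_mul]; exact NNRat.coe_add _ _ }
    refine ⟨MulEquiv.ofBijective g ⟨?_, ?_⟩⟩
    · intro x y hxy
      have h1 : (((f x).toAdd : ℚ≥0) : ℚ) = ((f y).toAdd : ℚ) :=
        congrArg (fun z : Multiplicative {q : ℚ // 0 < q} => z.toAdd.1) hxy
      have h2 : f x = f y := Multiplicative.toAdd.injective (NNRat.coe_inj.mp h1)
      exact f_inj hS f (hpos x) (hE _) (hE _) h2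
    · intro q
      have hq0 : toNN q.toAdd / (f s).toAdd ≠ 0 := div_ne_zero (toNN_ne_zero _) hs
      refine ⟨powEnd hS (toNN q.toAdd / (f s).toAdd) hq0 s, ?_⟩
      apply Multiplicative.toAdd.injective
      apply Subtype.ext
      show (((f (powEnd hS (toNN q.toAdd / (f s).toAdd) hq0 s)).toAdd : ℚ≥0) : ℚ) = q.toAdd.1
      rw [← liftF_coe, coe_powEnd, liftF_rp hS, liftF_coe, div_mul_cancel₀ _ hs, coe_toNN]
  · rintro ⟨g⟩
    refine ⟨fun x => (g x).toAdd.1, fun x => (g x).toAdd.2.le, fun x y => ?_, ?_⟩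
    · dsimp only
      rw [map_mul, toAdd_mul]; rfl
    · obtain ⟨x⟩ : Nonempty S := inferInstance
      exact ⟨x, (g x).toAdd.2.ne'⟩

theorem solNonneg_unique (h : SolNonneg S) :
    HasRatHom S ↔ Nonempty (S ≃* Multiplicative ℚ≥0) := by
  obtain ⟨hnt, hS, e, he, hE⟩ := solNonneg_forward h
  have hM := UD_withOne hS
  constructor
  · rw [hasRatHom_iff]
    rintro ⟨f, s, hs⟩
    have hfe : (f e).toAdd = 0 := by
      have h1 := congrArg (fun z => (f z).toAdd) (he e)
      rw [map_mul, toAdd_mul] at h1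
      have h2 : (f e).toAdd + (f e).toAdd = (f e).toAdd + 0 := by rw [add_zero]; exact h1
      exact add_left_cancel h2
    have hpow : ∀ t, (f t).toAdd ≠ 0 → IsRatPow (twist hS f t) := by
      intro t ht
      rcases hE (twist hS f t) with h1 | h1
      · exfalso
        have h2 := congrArg (fun z : S => (liftF f (z : WithOne S)).toAdd) (h1 t)
        rw [coe_twist, map_mul, toAdd_mul, liftF_rp hS, liftF_coe, liftF_coe, hfe] at h2
        exact ht (add_eq_zero.mp h2).1
      · exact h1
    have hzero : ∀ x, (f x).toAdd = 0 → x = e := by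
      intro x hx
      by_contra hxe
      have h1 := twist_eq hS f s hs (hpow s hs) x
      rw [hx, rp_zero hM, mul_one] at h1
      have h2 : rp (x : WithOne S) 1 = rp (x : WithOne S) (1 + (f s).toAdd) := by
        rw [rp_one hM]; exact h1
      have h3 := exp_inj_nonneg hnt hS he hE hxe h2
      exact hs (by
        have h4 : (1 : ℚ≥0) + 0 = 1 + (f s).toAdd := by rw [add_zero]; exact h3
        exact (add_left_cancel h4).symm)
    refine ⟨MulEquiv.ofBijective f ⟨?_, ?_⟩⟩
    · intro x y hxy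
      by_cases hx : (f x).toAdd = 0
      · have hy : (f y).toAdd = 0 := by rw [← hxy]; exact hx
        rw [hzero x hx, hzero y hy]
      · exact f_inj hS f hx (hpow x hx) (hpow y (by rw [← hxy]; exact hx)) hxy
    · intro q
      by_cases hq : q.toAdd = 0
      · refine ⟨e, ?_⟩
        apply Multiplicative.toAdd.injective
        rw [hfe, hq]
      · have hq0 : q.toAdd / (f s).toAdd ≠ 0 := div_ne_zero hq hs
        refine ⟨powEnd hS (q.toAdd / (f s).toAdd) hq0 s, ?_⟩
        apply Multiplicative.toAdd.injective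
        rw [← liftF_coe, coe_powEnd, liftF_rp hS, liftF_coe, div_mul_cancel₀ _ hs]
  · rintro ⟨g⟩
    refine ⟨fun x => ((g x).toAdd : ℚ), fun x => NNRat.coe_nonneg _, fun x y => ?_, ?_⟩
    · dsimp only
      rw [map_mul, toAdd_mul]; exact NNRat.coe_add _ _
    · refine ⟨g.symm (Multiplicative.ofAdd 1), ?_⟩
      dsimp only
      rw [MulEquiv.apply_symm_apply, toAdd_ofAdd]
      norm_num

end

end H91R2.EndRat
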